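import Pool.Agent.P.MP_754066_an.Diag

namespace Pool.Agent.P.MP_754066_an

open Complex Filter Topology

variable {A0 A1 B0 B1 : Type} [NormedAddCommGroup A0] [NormedSpace ℂ A0]
  [NormedAddCommGroup A1] [NormedSpace ℂ A1] [NormedAddCommGroup B0] [NormedSpace ℂ B0]
  [NormedAddCommGroup B1] [NormedSpace ℂ B1]

/-- a Lipschitz map that is complex Gateaux differentiable is affine -/
lemma affine_of_gateaux [CompleteSpace B0] {U : A0 → B0} {M0 : ℝ}
    (h1 : ∀ a b, ‖U a - U b‖ ≤ M0 * ‖a - b‖)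
    (h3 : ∀ a, ∃ L : A0 →L[ℂ] B0, ∀ h,
      Tendsto (fun t : ℂ => t⁻¹ • (U (a + t • h) - U a)) (𝓝[≠] 0) (𝓝 (L h))) :
    ∃ L : A0 →L[ℂ] B0, ∀ h, U h = U 0 + L h := by
  choose L hL using h3
  refine ⟨L 0, fun h => ?_⟩
  have hder : ∀ z : ℂ, HasDerivAt (fun w : ℂ => U (w • h)) (L (z • h) h) z := by
    intro z
    rw [hasDerivAt_iff_tendsto_slope_zero]
    simpa only [add_smul] using hL (z • h) h
  have hdiff : Differentiable ℂ (fun w : ℂ => U (w • h)) := fun z => (hder z).differentiableAt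
  have hbd : ∀ z : ℂ, ‖deriv (fun w : ℂ => U (w • h)) z‖ ≤ M0 * ‖h‖ := by
    intro z
    rw [(hder z).deriv]
    apply le_of_tendsto (hL (z • h) h).norm
    filter_upwards [self_mem_nhdsWithin] with t ht
    have ht' : (0 : ℝ) < ‖t‖ := norm_pos_iff.mpr ht
    rw [norm_smul, norm_inv, inv_mul_le_iff₀ ht']
    refine (h1 _ _).trans (le_of_eq ?_)
    rw [add_sub_cancel_left, norm_smul]; ring
  have hconst : ∀ z : ℂ, deriv (fun w : ℂ => U (w • h)) z = deriv (fun w : ℂ => U (w • h)) 0 := by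
    intro z
    apply hdiff.deriv.apply_eq_apply_of_bounded
    rw [isBounded_iff_forall_norm_le]
    exact ⟨M0 * ‖h‖, by rintro _ ⟨w, rfl⟩; exact hbd w⟩
  have hzero : ∀ z : ℂ, HasDerivAt (fun w : ℂ => U (w • h) - w • L 0 h) 0 z := by
    intro z
    have e1 : L (z • h) h = L 0 h := by
      rw [← (hder z).deriv, hconst z, (hder 0).deriv, zero_smul]
    have := (hder z).sub ((hasDerivAt_id z).smul_const (L 0 h))
    rw [e1, one_smul, sub_self] at this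
    exact this
  have := is_const_of_deriv_eq_zero (fun z => (hzero z).differentiableAt)
    (fun z => (hzero z).deriv) 1 0
  simp only [one_smul, zero_smul, sub_zero] at this
  rw [← this]; abel

theorem complex_case [CompleteSpace B0] (jA : A1 →L[ℂ] A0) (jB : B1 →L[ℂ] B0)
    (hB : Function.Injective jB) (θ : ℝ) (U : A0 → B0) (M0 M1 : ℝ) (hM : 0 ≤ max M0 M1)
    (h1 : ∀ a b, ‖U a - U b‖ ≤ M0 * ‖a - b‖)
    (h2 : ∀ x, ∃ y, jB y = U (jA x) ∧ ‖y‖ ≤ M1 * ‖x‖)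
    (h3 : ∀ a, ∃ L : A0 →L[ℂ] B0, ∀ h,
      Tendsto (fun t : ℂ => t⁻¹ • (U (a + t • h) - U a)) (𝓝[≠] 0) (𝓝 (L h)))
    (a : A0) (ha : a ∈ interp jA θ) :
    U a ∈ interp jB θ ∧ interpNorm jB θ (U a) ≤ max M0 M1 * interpNorm jA θ a := by
  obtain ⟨L, hL⟩ := affine_of_gateaux h1 h3
  have hU0 : U 0 = 0 := by
    obtain ⟨y, hy1, hy2⟩ := h2 0
    rw [norm_zero, mul_zero, norm_le_zero_iff] at hy2
    rw [hy2, map_zero, map_zero] at hy1
    exact hy1.symm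
  have hUL : U = L := by funext h; rw [hL, hU0, zero_add]
  subst hUL
  choose V hV1 hV2 using h2
  let Vl : A1 →ₗ[ℂ] B1 :=
    { toFun := V
      map_add' := fun x y => hB (by rw [map_add, hV1, hV1, hV1, map_add, map_add])
      map_smul' := fun c x => hB (by
        rw [map_smul, hV1, hV1, map_smul, map_smul]; rfl) }
  let Vc : A1 →L[ℂ] B1 := Vl.mkContinuous M1 hV2
  have hL0 : ∀ x, ‖L x‖ ≤ M0 * ‖x‖ := fun x => by simpa using h1 x 0
  have hadm : ∀ f g, Adm jA f g → Adm jB (fun z => L (f z)) (fun t => Vc (g t)) := by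
    rintro f g ⟨g1, g2, ⟨C, g3⟩, g4, g5, g6, g7⟩
    refine ⟨L.continuous.comp_continuousOn g1, L.differentiable.comp_differentiableOn g2,
      ⟨‖L‖ * C, fun z hz0 hz1 => (L.le_opNorm _).trans
        (mul_le_mul_of_nonneg_left (g3 z hz0 hz1) (norm_nonneg _))⟩, fun t => ?_,
      Vc.continuous.comp g5, ?_, ?_⟩
    · show L (f (1 + t * I)) = jB (V (g t))
      rw [g4]; exact (hV1 _).symm
    · have := (L.continuous.tendsto 0).comp g6
      rwa [map_zero] at this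
    · have := (Vc.continuous.tendsto 0).comp g7
      rwa [map_zero] at this
  obtain ⟨f, g, hfg, hfa⟩ := ha
  refine ⟨⟨_, _, hadm f g hfg, by rw [← hfa]⟩, ?_⟩
  have hne : {M | ∃ f g, Adm jA f g ∧ f θ = a ∧
      ∀ t : ℝ, ‖f (t * I)‖ ≤ M ∧ ‖g t‖ ≤ M}.Nonempty := by
    obtain ⟨-, -, ⟨C, g3⟩, -, g5, -, g7⟩ := id hfg
    obtain ⟨D, hD⟩ := bdd_of_tendsto g5 g7
    exact ⟨max C D, f, g, hfg, hfa, fun t =>
      ⟨(g3 _ (by simp) (by simp)).trans (le_max_left _ _), (hD t).trans (le_max_right _ _)⟩⟩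
  have hbdd : BddBelow {M | ∃ f g, Adm jB f g ∧ f θ = L a ∧
      ∀ t : ℝ, ‖f (t * I)‖ ≤ M ∧ ‖g t‖ ≤ M} := by
    refine ⟨0, ?_⟩
    rintro M ⟨f, g, -, -, h⟩
    exact (norm_nonneg _).trans (h 0).1
  have key : ∀ M ∈ {M | ∃ f g, Adm jA f g ∧ f θ = a ∧ ∀ t : ℝ, ‖f (t * I)‖ ≤ M ∧ ‖g t‖ ≤ M},
      interpNorm jB θ (L a) ≤ max M0 M1 * M := by
    rintro M ⟨f, g, hfg, hfa, h⟩
    apply csInf_le hbdd
    refine ⟨_, _, hadm f g hfg, by rw [← hfa], fun t => ⟨?_, ?_⟩⟩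
    · exact (hL0 _).trans (mul_le_mul (le_max_left _ _) (h t).1 (norm_nonneg _) hM)
    · exact (hV2 _).trans (mul_le_mul (le_max_right _ _) (h t).2 (norm_nonneg _) hM)
  rcases hM.eq_or_lt with h0 | h0
  · obtain ⟨M, hM'⟩ := hne
    have := key M hM'
    rw [← h0, zero_mul] at this ⊢
    exact this
  · rw [← div_le_iff₀' h0]
    apply le_csInf hne
    intro M hM'
    rw [div_le_iff₀' h0]
    exact key M hM'

end Pool.Agent.P.MP_754066_an
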