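import Pool.Agent.P.MP_754066_an.Diag

namespace Pool.Agent.P.MP_754066_an

open Complex Filter Topology

/-- smooth cut-off, `1` for `s ≤ ε / 2` and `0` for `s ≥ ε` -/
noncomputable def cut (ε s : ℝ) : ℝ := Real.smoothTransition (2 - 2 * s / ε)

/-- projection onto `[ε / 2, ε]` -/
noncomputable def clip (ε s : ℝ) : ℝ := max (ε / 2) (min s ε)

lemma cut_nonneg (ε s : ℝ) : 0 ≤ cut ε s := Real.smoothTransition.nonneg _
lemma cut_le_one (ε s : ℝ) : cut ε s ≤ 1 := Real.smoothTransition.le_one _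

lemma cut_zero {ε s : ℝ} (hε : 0 < ε) (h : ε ≤ s) : cut ε s = 0 := by
  apply Real.smoothTransition.zero_of_nonpos
  have : 2 ≤ 2 * s / ε := by rw [le_div_iff₀ hε]; linarith
  linarith

lemma cut_one {ε s : ℝ} (hε : 0 < ε) (h : s ≤ ε / 2) : cut ε s = 1 := by
  apply Real.smoothTransition.one_of_one_le
  have : 2 * s / ε ≤ 1 := by rw [div_le_iff₀ hε]; linarith
  linarith

lemma cut_clip {ε : ℝ} (hε : 0 < ε) (s : ℝ) : cut ε (clip ε s) = cut ε s := by
  unfold clip
  rcases le_total s (ε / 2) with h | h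
  · rw [min_eq_left (by linarith), max_eq_left h, cut_one hε h, cut_one hε le_rfl]
  · rcases le_total s ε with h' | h'
    · rw [min_eq_left h', max_eq_right h]
    · rw [min_eq_right h', max_eq_right (by linarith), cut_zero hε h', cut_zero hε le_rfl]

lemma exists_lip : ∃ K : ℝ, 0 ≤ K ∧ ∀ ε s s' : ℝ, 0 < ε →
    |cut ε s - cut ε s'| ≤ K / ε * |clip ε s - clip ε s'| := by
  obtain ⟨K, hK⟩ := ((Real.smoothTransition.contDiff (n := 1)).contDiffOn
    (s := Set.Icc (0 : ℝ) 1)).exists_lipschitzOnWith (by simp) (convex_Icc 0 1) isCompact_Icc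
  refine ⟨2 * K, by positivity, fun ε s s' hε => ?_⟩
  have hmem : ∀ u : ℝ, 2 - 2 * clip ε u / ε ∈ Set.Icc (0 : ℝ) 1 := by
    intro u
    have h1 : ε / 2 ≤ clip ε u := le_max_left _ _
    have h2 : clip ε u ≤ ε := max_le (by linarith) (min_le_right _ _)
    have h3 : 2 * clip ε u / ε ≤ 2 := by rw [div_le_iff₀ hε]; linarith
    have h4 : 1 ≤ 2 * clip ε u / ε := by rw [le_div_iff₀ hε]; linarith
    constructor <;> linarith
  have h := hK.dist_le_mul _ (hmem s) _ (hmem s')
  rw [← cut_clip hε s, ← cut_clip hε s']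
  rw [Real.dist_eq, Real.dist_eq] at h
  refine h.trans (le_of_eq ?_)
  have : 2 - 2 * clip ε s / ε - (2 - 2 * clip ε s' / ε) = -(2 / ε) * (clip ε s - clip ε s') := by
    ring
  rw [this, abs_mul, abs_neg, abs_of_pos (by positivity)]
  ring

lemma clip_sum_le {ε : ℕ → ℝ} (h0 : ∀ n, 0 < ε n) (h1 : ∀ n, ε (n + 1) ≤ ε n / 2) {s s' : ℝ}
    (hs : s ≤ s') (N : ℕ) :
    ∑ n ∈ Finset.range N, (clip (ε n) s' - clip (ε n) s) ≤ max s' (ε N) - max s (ε N) := by
  induction N with
  | zero => simp only [Finset.range_zero, Finset.sum_empty, sub_nonneg]; exact max_le_max hs le_rfl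
  | succ N ih =>
    rw [Finset.sum_range_succ]
    have h2 := h0 N
    have h3 := h1 N
    have h4 := h0 (N + 1)
    have : max s' (ε N) - max s (ε N) + (clip (ε N) s' - clip (ε N) s) ≤
        max s' (ε (N + 1)) - max s (ε (N + 1)) := by
      unfold clip
      simp only [max_def, min_def]
      split_ifs <;> linarith
    linarith

lemma clip_mono (ε : ℝ) {s s' : ℝ} (hs : s ≤ s') : clip ε s ≤ clip ε s' :=
  max_le_max le_rfl (min_le_min hs le_rfl)

lemma clip_abs_sum_le {ε : ℕ → ℝ} (h0 : ∀ n, 0 < ε n) (h1 : ∀ n, ε (n + 1) ≤ ε n / 2)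
    (s s' : ℝ) (F : Finset ℕ) : ∑ n ∈ F, |clip (ε n) s - clip (ε n) s'| ≤ |s - s'| := by
  wlog hs : s' ≤ s generalizing s s'
  · have := this s' s (by linarith)
    rw [abs_sub_comm s s']
    refine le_trans (le_of_eq ?_) this
    exact Finset.sum_congr rfl fun n _ => abs_sub_comm _ _
  have h2 : ∑ n ∈ F, |clip (ε n) s - clip (ε n) s'| ≤
      ∑ n ∈ Finset.range (F.sup id + 1), |clip (ε n) s - clip (ε n) s'| := by
    apply Finset.sum_le_sum_of_subset_of_nonneg
    · intro n hn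
      rw [Finset.mem_range]
      exact Nat.lt_succ_of_le (Finset.le_sup (f := id) hn)
    · intro n _ _; exact abs_nonneg _
  refine h2.trans ?_
  rw [Finset.sum_congr rfl fun n _ => abs_of_nonneg (sub_nonneg.mpr (clip_mono (ε n) hs))]
  refine (clip_sum_le h0 h1 hs _).trans ?_
  rw [abs_of_nonneg (by linarith)]
  simp only [max_def]
  split_ifs <;> linarith

/-- the sequences -/
noncomputable def al (n : ℕ) : ℝ := ((n : ℝ) + 1) ^ (-(3 / 5 : ℝ))
noncomputable def ep (n : ℕ) : ℝ := ((2 : ℝ) ^ n)⁻¹ * al n / 2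
noncomputable def bb (n : ℕ) : ℝ := ((2 : ℝ) ^ n)⁻¹ * ((n : ℝ) + 1)⁻¹

lemma al_pos (n : ℕ) : 0 < al n := Real.rpow_pos_of_pos (by positivity) _

lemma al_anti (n : ℕ) : al (n + 1) ≤ al n := by
  unfold al
  apply Real.rpow_le_rpow_of_nonpos (by positivity) (by push_cast; linarith) (by norm_num)

lemma ep_pos (n : ℕ) : 0 < ep n := by
  have := al_pos n
  unfold ep; positivity

lemma ep_succ (n : ℕ) : ep (n + 1) ≤ ep n / 2 := by
  unfold ep
  have h := al_anti n
  have h2 : (0 : ℝ) < ((2 : ℝ) ^ n)⁻¹ := by positivity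
  rw [pow_succ, mul_inv]
  nlinarith

lemma bb_pos (n : ℕ) : 0 < bb n := by unfold bb; positivity

lemma inv_eq (n : ℕ) : ((n : ℝ) + 1)⁻¹ = ((n : ℝ) + 1) ^ (-(2 / 5 : ℝ)) * al n := by
  unfold al
  rw [← Real.rpow_add (by positivity), ← Real.rpow_neg_one]
  norm_num

lemma bb_eq (n : ℕ) : bb n = 2 * ((n : ℝ) + 1) ^ (-(2 / 5 : ℝ)) * ep n := by
  unfold bb ep
  rw [inv_eq]; ring

lemma rp_le_one (n : ℕ) : ((n : ℝ) + 1) ^ (-(2 / 5 : ℝ)) ≤ 1 :=
  Real.rpow_le_one_of_one_le_of_nonpos (by linarith [(Nat.cast_nonneg n : (0 : ℝ) ≤ n)])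
    (by norm_num)

lemma bb_le (n : ℕ) : bb n ≤ 2 * ep n := by
  rw [bb_eq]
  have := rp_le_one n
  have := ep_pos n
  nlinarith

lemma bb_small {δ : ℝ} (hδ : 0 < δ) : ∃ M : ℕ, ∀ n, M ≤ n → bb n ≤ δ * ep n := by
  have h : Tendsto (fun n : ℕ => ((n : ℝ) + 1) ^ (-(2 / 5 : ℝ))) atTop (𝓝 0) :=
    (tendsto_rpow_neg_atTop (by norm_num)).comp
      (tendsto_atTop_add_const_right _ _ tendsto_natCast_atTop_atTop)
  obtain ⟨M, hM⟩ := eventually_atTop.mp (h.eventually (gt_mem_nhds (half_pos hδ)))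
  refine ⟨M, fun n hn => ?_⟩
  rw [bb_eq]
  have := hM n hn
  have := ep_pos n
  nlinarith

lemma ep_anti : Antitone ep := antitone_nat_of_succ_le fun n => by
  have := ep_succ n
  have := ep_pos n
  linarith

lemma ep_le (n : ℕ) : ep n ≤ (1 / 2) ^ n := by
  induction n with
  | zero => simp [ep, al]; norm_num
  | succ n ih => have := ep_succ n; rw [pow_succ]; linarith

lemma ep_tendsto : Tendsto ep atTop (𝓝 0) :=
  squeeze_zero (fun n => (ep_pos n).le) ep_le
    (tendsto_pow_atTop_nhds_zero_of_lt_one (by norm_num) (by norm_num))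

lemma summable_bb : Summable bb := by
  refine Summable.of_nonneg_of_le (fun n => (bb_pos n).le) (fun n => ?_)
    (summable_geometric_two.mul_left 2)
  exact (bb_le n).trans (by linarith [ep_le n])

lemma summable_al : Summable (fun n => al n ^ 2) := by
  have h : Summable (fun n : ℕ => ((n : ℝ)) ^ (-(6 / 5 : ℝ))) :=
    Real.summable_nat_rpow.mpr (by norm_num)
  have h2 := (summable_nat_add_iff 1).mpr h
  refine h2.congr fun n => ?_
  unfold al
  rw [← Real.rpow_natCast, ← Real.rpow_mul (by positivity)]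
  push_cast
  norm_num

lemma partial_sum_le (N : ℕ) :
    ∑ n ∈ Finset.range (N + 1), (2 : ℝ) ^ n * ((n : ℝ) + 1)⁻¹ ≤ 4 * 2 ^ N * ((N : ℝ) + 1)⁻¹ := by
  induction N with
  | zero => norm_num
  | succ N ih =>
    rcases Nat.eq_zero_or_pos N with h | h
    · subst h; norm_num [Finset.sum_range_succ]
    · rw [Finset.sum_range_succ]
      refine (add_le_add ih le_rfl).trans ?_
      have h1 : (1 : ℝ) ≤ N := by exact_mod_cast h
      have h2 : (0 : ℝ) < 2 ^ N := by positivity
      push_cast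
      rw [pow_succ]
      have h3 : 4 * ((N : ℝ) + 1)⁻¹ ≤ 6 * ((N : ℝ) + 1 + 1)⁻¹ := by
        rw [← div_eq_mul_inv, ← div_eq_mul_inv, div_le_div_iff₀ (by positivity) (by positivity)]
        linarith
      nlinarith

lemma memℓp_gam (s : ℝ) : Memℓp (fun n : ℕ => ((bb n * cut (ep n) s : ℝ) : ℂ)) 1 := by
  apply memℓp_gen
  simp only [ENNReal.toReal_one, Real.rpow_one]
  refine Summable.of_nonneg_of_le (fun n => norm_nonneg _) (fun n => ?_) summable_bb
  rw [Complex.norm_real, Real.norm_eq_abs,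
    abs_of_nonneg (mul_nonneg (bb_pos n).le (cut_nonneg _ _))]
  exact mul_le_of_le_one_right (bb_pos n).le (cut_le_one _ _)

/-- the curve in `ℓ¹` -/
noncomputable def gam (s : ℝ) : Lp' 1 := ⟨fun n => ((bb n * cut (ep n) s : ℝ) : ℂ), memℓp_gam s⟩

lemma gam_apply (s : ℝ) (n : ℕ) : gam s n = ((bb n * cut (ep n) s : ℝ) : ℂ) := rfl

lemma gam_lip : ∃ K : ℝ, 0 ≤ K ∧ ∀ δ s s' : ℝ, 0 ≤ δ →
    (∀ n, clip (ep n) s = clip (ep n) s' ∨ bb n ≤ δ * ep n) →
      ‖gam s - gam s'‖ ≤ K * δ * |s - s'| := by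
  obtain ⟨K, hK0, hK⟩ := exists_lip
  refine ⟨K, hK0, fun δ s s' hδ h => ?_⟩
  apply lp.norm_le_of_forall_sum_le (by simp) (by positivity)
  intro F
  simp only [ENNReal.toReal_one, Real.rpow_one]
  refine le_trans ?_ (mul_le_mul_of_nonneg_left (clip_abs_sum_le ep_pos ep_succ s s' F)
    (by positivity))
  rw [Finset.mul_sum]
  apply Finset.sum_le_sum
  intro n _
  rw [lp.coeFn_sub, Pi.sub_apply, gam_apply, gam_apply, ← ofReal_sub, Complex.norm_real,
    Real.norm_eq_abs, ← mul_sub, abs_mul, abs_of_pos (bb_pos n)]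
  have h1 := hK (ep n) s s' (ep_pos n)
  rcases h n with h2 | h2
  · rw [h2, sub_self, abs_zero, mul_zero] at h1
    rw [h2, sub_self, abs_zero, mul_zero]
    exact mul_nonpos_of_nonneg_of_nonpos (bb_pos n).le h1
  · have h3 := ep_pos n
    calc bb n * |cut (ep n) s - cut (ep n) s'|
        ≤ (δ * ep n) * (K / ep n * |clip (ep n) s - clip (ep n) s'|) :=
          mul_le_mul h2 h1 (abs_nonneg _) (by positivity)
      _ = K * δ * |clip (ep n) s - clip (ep n) s'| := by field_simp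

lemma gam_differentiableAt {s : ℝ} (hs : 0 < s) : DifferentiableAt ℝ gam s := by
  obtain ⟨N, hN⟩ := eventually_atTop.mp (ep_tendsto.eventually (gt_mem_nhds (half_pos hs)))
  have heq : gam =ᶠ[𝓝 s] fun u => ∑ n ∈ Finset.range N,
      cut (ep n) u • (lp.single 1 n (bb n : ℂ) : Lp' 1) := by
    filter_upwards [lt_mem_nhds (half_lt_self hs)] with u hu
    apply lp.ext; funext m
    rw [gam_apply, lp.coeFn_sum, Finset.sum_apply]
    by_cases hm : m < N
    · rw [Finset.sum_eq_single m]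
      · rw [lp.coeFn_smul, Pi.smul_apply, lp.single_apply_self]
        simp [mul_comm]
      · intro n _ hn
        rw [lp.coeFn_smul, Pi.smul_apply, lp.single_apply_ne _ _ _ hn.symm, smul_zero]
      · intro h; exact absurd (Finset.mem_range.mpr hm) h
    · rw [cut_zero (ep_pos m) (by linarith [hN m (by omega)])]
      rw [Finset.sum_eq_zero]
      · simp
      · intro n hn
        rw [Finset.mem_range] at hn
        rw [lp.coeFn_smul, Pi.smul_apply, lp.single_apply_ne _ _ _ (by omega), smul_zero]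
  refine DifferentiableAt.congr_of_eventuallyEq ?_ heq
  apply DifferentiableAt.fun_sum
  intro n _
  apply DifferentiableAt.smul_const
  unfold cut
  apply DifferentiableAt.comp (g := Real.smoothTransition) s
  · exact (Real.smoothTransition.contDiff (n := 1)).differentiable (by simp) _
  · fun_prop

lemma memℓp_al : Memℓp (fun n : ℕ => (al n : ℂ)) 2 := by
  apply memℓp_gen
  refine summable_al.congr fun n => ?_
  rw [Complex.norm_real, Real.norm_eq_abs, abs_of_pos (al_pos n)]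
  simp

/-- the point of the interpolation space -/
noncomputable def pt : Lp' 2 := fam ⟨fun n => (al n : ℂ), memℓp_al⟩ ((1 / 2 : ℝ) : ℂ)

lemma pt_apply (n : ℕ) : pt n = ((2 * ep n : ℝ) : ℂ) := by
  unfold pt
  rw [fam_apply _ (by simp), wt_half]
  show _ * (al n : ℂ) = _
  unfold ep
  push_cast; ring

/-- the operator -/
noncomputable def UU (x : Lp' 2) : Lp' 1 := gam ‖x - pt‖

lemma UU_lip : ∃ M : ℝ, ∀ x y, ‖UU x - UU y‖ ≤ M * ‖x - y‖ := by
  obtain ⟨K, hK0, hK⟩ := gam_lip
  refine ⟨K * 2, fun x y => ?_⟩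
  refine (hK 2 _ _ (by norm_num) fun n => Or.inr (bb_le n)).trans ?_
  apply mul_le_mul_of_nonneg_left _ (by positivity)
  refine (abs_norm_sub_norm_le _ _).trans (le_of_eq ?_)
  congr 1; abel

lemma UU_hasFDerivAt_pt : HasFDerivAt UU (0 : Lp' 2 →L[ℝ] Lp' 1) pt := by
  obtain ⟨K, hK0, hK⟩ := gam_lip
  rw [hasFDerivAt_iff_isLittleO, Asymptotics.isLittleO_iff]
  intro c hc
  obtain ⟨M, hM⟩ := bb_small (δ := c / (K + 1)) (by positivity)
  have hball : ∀ᶠ x in 𝓝 pt, ‖x - pt‖ < ep M / 2 := by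
    have := Metric.ball_mem_nhds pt (half_pos (ep_pos M))
    filter_upwards [this] with x hx
    rwa [Metric.mem_ball, dist_eq_norm] at hx
  filter_upwards [hball] with x hx
  simp only [zero_apply, sub_zero]
  unfold UU
  rw [sub_self, norm_zero]
  refine (hK (c / (K + 1)) _ _ (by positivity) fun n => ?_).trans ?_
  · by_cases hn : M ≤ n
    · exact Or.inr (hM n hn)
    · left
      have h1 : ep M ≤ ep n := ep_anti (by omega)
      have h2 := ep_pos n
      unfold clip
      rw [max_eq_left (min_le_of_left_le (by linarith)),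
        max_eq_left (min_le_of_left_le (by linarith))]
  · rw [sub_zero, abs_norm]
    apply mul_le_mul_of_nonneg_right _ (norm_nonneg _)
    rw [← mul_div_assoc, div_le_iff₀ (by positivity)]
    nlinarith

lemma UU_differentiable : Differentiable ℝ UU := by
  intro x
  by_cases hx : x = pt
  · rw [hx]; exact UU_hasFDerivAt_pt.differentiableAt
  · have h1 : x - pt ≠ 0 := sub_ne_zero.mpr hx
    have h2 : DifferentiableAt ℝ (fun y : Lp' 2 => ‖y - pt‖) x :=
      DifferentiableAt.norm ℂ (by fun_prop) h1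
    exact (gam_differentiableAt (norm_pos_iff.mpr h1)).comp x h2

lemma UU_bound (x : Lp' 2) : ∃ y : Lp' 1, incl 1 y = UU (incl 2 x) ∧ ‖y‖ ≤ 8 * ‖x‖ := by
  set s := ‖incl 2 x - pt‖ with hs
  set y : ℕ → ℂ := fun n => (((4 : ℝ) ^ n * (bb n * cut (ep n) s) : ℝ) : ℂ) with hy
  have hyn : ∀ n, ‖y n‖ = 4 ^ n * (bb n * cut (ep n) s) := by
    intro n
    rw [hy]
    simp only
    rw [Complex.norm_real, Real.norm_eq_abs, abs_of_nonneg]
    exact mul_nonneg (by positivity) (mul_nonneg (bb_pos n).le (cut_nonneg _ _))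
  have h42 : ∀ n : ℕ, (4 : ℝ) ^ n = 2 ^ n * 2 ^ n := by
    intro n; rw [← mul_pow]; norm_num
  have hsum : ∀ N, ∑ n ∈ Finset.range N, ‖y n‖ ≤ 8 * ‖x‖ := by
    intro N
    induction N with
    | zero => simp
    | succ N ih =>
      by_cases h : ep N ≤ s
      · rw [Finset.sum_range_succ, hyn N, cut_zero (ep_pos N) h]
        simpa using ih
      · push Not at h
        have h1 : ∑ n ∈ Finset.range (N + 1), ‖y n‖ ≤
            ∑ n ∈ Finset.range (N + 1), (2 : ℝ) ^ n * ((n : ℝ) + 1)⁻¹ := by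
          apply Finset.sum_le_sum
          intro n _
          rw [hyn]
          have h2 : bb n * cut (ep n) s ≤ bb n :=
            mul_le_of_le_one_right (bb_pos n).le (cut_le_one _ _)
          refine (mul_le_mul_of_nonneg_left h2 (by positivity)).trans (le_of_eq ?_)
          unfold bb
          rw [h42]; field_simp
        refine h1.trans ((partial_sum_le N).trans ?_)
        have h2 : ‖(incl 2 x - pt) N‖ ≤ s := lp.norm_apply_le_norm (by simp) _ N
        rw [lp.coeFn_sub, Pi.sub_apply, incl_apply, pt_apply] at h2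
        have h3 : ‖((2 * ep N : ℝ) : ℂ)‖ ≤ ‖wt 1 N * x N‖ + ‖wt 1 N * x N - ((2 * ep N : ℝ) : ℂ)‖ :=
          norm_le_insert _ _
        have h4 : ‖x N‖ ≤ ‖x‖ := lp.norm_apply_le_norm (by simp) _ N
        rw [Complex.norm_real, Real.norm_eq_abs, abs_of_pos (by linarith [ep_pos N]), norm_mul,
          wt_one, Complex.norm_real, Real.norm_eq_abs, abs_of_pos (by positivity)] at h3
        rw [wt_one] at h2
        have h5 : ep N ≤ ((4 : ℝ) ^ N)⁻¹ * ‖x‖ := by
          have : ((4 : ℝ) ^ N)⁻¹ * ‖x N‖ ≤ ((4 : ℝ) ^ N)⁻¹ * ‖x‖ :=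
            mul_le_mul_of_nonneg_left h4 (by positivity)
          linarith
        have h6 : (4 : ℝ) ^ N * ep N ≤ ‖x‖ := by
          have := mul_le_mul_of_nonneg_left h5 (by positivity : (0 : ℝ) ≤ 4 ^ N)
          rwa [← mul_assoc, mul_inv_cancel₀ (by positivity), one_mul] at this
        have h7 : (4 : ℝ) ^ N * bb N ≤ 4 ^ N * (2 * ep N) :=
          mul_le_mul_of_nonneg_left (bb_le N) (by positivity)
        have h8 : (4 : ℝ) ^ N * bb N = 2 ^ N * ((N : ℝ) + 1)⁻¹ := by
          unfold bb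
          rw [h42]; field_simp
        nlinarith
  have hF : ∀ F : Finset ℕ, ∑ n ∈ F, ‖y n‖ ^ (1 : ENNReal).toReal ≤ 8 * ‖x‖ := by
    intro F
    simp only [ENNReal.toReal_one, Real.rpow_one]
    refine le_trans ?_ (hsum (F.sup id + 1))
    apply Finset.sum_le_sum_of_subset_of_nonneg
    · intro n hn
      rw [Finset.mem_range]
      exact Nat.lt_succ_of_le (Finset.le_sup (f := id) hn)
    · intro n _ _; exact norm_nonneg _
  refine ⟨⟨y, memℓp_gen' hF⟩, ?_, ?_⟩
  · apply lp.ext; funext n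
    rw [incl_apply, UU, gam_apply, wt_one]
    show _ * y n = _
    rw [hy]
    simp only
    rw [← ofReal_mul, ← mul_assoc, inv_mul_cancel₀ (by positivity), one_mul]
  · apply lp.norm_le_of_forall_sum_le (by simp) (by positivity)
    intro F
    have := hF F
    simpa using this

lemma pt_mem : pt ∈ interp (incl 2) (1 / 2) := fam_mem_interp _

lemma UU_pt_notMem : UU pt ∉ interp (incl 1) (1 / 2) := by
  intro h
  obtain ⟨C, hC⟩ := bound_of_mem_interp h
  have h1 : ∀ N : ℕ, ∑ n ∈ Finset.range N, (2 : ℂ) ^ n * UU pt n =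
      ((∑ n ∈ Finset.range N, (1 / ((n : ℝ) + 1)) : ℝ) : ℂ) := by
    intro N
    rw [ofReal_sum]
    apply Finset.sum_congr rfl
    intro n _
    rw [UU, gam_apply, sub_self, norm_zero, cut_one (ep_pos n) (half_pos (ep_pos n)).le, bb]
    push_cast
    field_simp
  obtain ⟨N, hN⟩ := (Real.tendsto_sum_range_one_div_nat_succ_atTop.eventually_gt_atTop C).exists
  have h2 := hC N
  rw [h1, Complex.norm_real, Real.norm_eq_abs] at h2
  linarith [le_abs_self (∑ n ∈ Finset.range N, (1 / ((n : ℝ) + 1)))]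

lemma gateaux_of_differentiable {E F : Type} [NormedAddCommGroup E] [NormedSpace ℝ E]
    [NormedAddCommGroup F] [NormedSpace ℝ F] {U : E → F} (hU : Differentiable ℝ U) (a : E) :
    ∃ L : E →L[ℝ] F, ∀ h : E,
      Tendsto (fun t : ℝ => t⁻¹ • (U (a + t • h) - U a)) (𝓝[≠] 0) (𝓝 (L h)) := by
  refine ⟨fderiv ℝ U a, fun h => ?_⟩
  have h1 := (hU a).hasFDerivAt.hasLineDerivAt h
  have h2 := hasDerivAt_iff_tendsto_slope_zero.mp h1
  simpa using h2

lemma realGateaux_of_differentiable {E F : Type} [NormedAddCommGroup E] [NormedSpace ℂ E]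
    [NormedAddCommGroup F] [NormedSpace ℂ F] [iE : NormedSpace ℝ E] [iF : NormedSpace ℝ F]
    [IsScalarTower ℝ ℂ E] [IsScalarTower ℝ ℂ F] {U : E → F} (hU : Differentiable ℝ U) :
    RealGateaux U := by
  have hE : iE = NormedSpace.complexToReal := by
    ext r x
    exact (algebraMap_smul ℂ r x).symm
  have hF : iF = NormedSpace.complexToReal := by
    ext r x
    exact (algebraMap_smul ℂ r x).symm
  subst hE hF
  exact gateaux_of_differentiable hU

end Pool.Agent.P.MP_754066_an
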