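import Mathlib

namespace Pool.Agent.P.MP_754066_an

open Complex Filter Topology

variable {A0 A1 : Type} [NormedAddCommGroup A0] [NormedSpace ℂ A0]
  [NormedAddCommGroup A1] [NormedSpace ℂ A1]

/-- Calderon's class `F(A0, A1)` for a couple `A1 ⊂ A0` given by the inclusion map `j`
(so `A0 + A1 = A0`): `f` is bounded and continuous on the closed strip, analytic in the open
strip, `f (1 + i t) = j (g t)` with `g` continuous into `A1`, and the boundary functions tend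
to `0` in `A0` and `A1` as `|t| → ∞`. -/
def Adm (j : A1 →L[ℂ] A0) (f : ℂ → A0) (g : ℝ → A1) : Prop :=
  ContinuousOn f {z | 0 ≤ z.re ∧ z.re ≤ 1} ∧
  DifferentiableOn ℂ f {z | 0 < z.re ∧ z.re < 1} ∧
  (∃ C : ℝ, ∀ z : ℂ, 0 ≤ z.re → z.re ≤ 1 → ‖f z‖ ≤ C) ∧
  (∀ t : ℝ, f (1 + t * I) = j (g t)) ∧ Continuous g ∧
  Tendsto (fun t : ℝ => f (t * I)) (cocompact ℝ) (𝓝 0) ∧ Tendsto g (cocompact ℝ) (𝓝 0)

/-- The complex interpolation space `[A0, A1]_θ`, as a subset of `A0`. -/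
def interp (j : A1 →L[ℂ] A0) (θ : ℝ) : Set A0 :=
  {a | ∃ f g, Adm j f g ∧ f θ = a}

/-- The norm of `[A0, A1]_θ`: the infimum of
`max (sup ‖f (i t)‖_A0) (sup ‖f (1 + i t)‖_A1)` over `f` in Calderon's class with `f θ = a`. -/
noncomputable def interpNorm (j : A1 →L[ℂ] A0) (θ : ℝ) (a : A0) : ℝ :=
  sInf {M | ∃ f g, Adm j f g ∧ f θ = a ∧ ∀ t : ℝ, ‖f (t * I)‖ ≤ M ∧ ‖g t‖ ≤ M}

/-- `U` is Gateaux differentiable in the real sense at every point, with a bounded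
real-linear derivative (the complex spaces are regarded as real spaces). -/
def RealGateaux (U : A0 → A1) : Prop :=
  ∀ a, ∃ L : A0 →L[ℝ] A1, ∀ h,
    Tendsto (fun t : ℝ => t⁻¹ • (U (a + t • h) - U a)) (𝓝[≠] 0) (𝓝 (L h))

end Pool.Agent.P.MP_754066_an
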