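import Pool.Agent.P.MP_754066_an.Defs

namespace Pool.Agent.P.MP_754066_an

open Complex Filter Topology

variable {A0 B0 : Type} [NormedAddCommGroup A0] [NormedSpace ℂ A0]
  [NormedAddCommGroup B0] [NormedSpace ℂ B0]

/-- `U` is Gateaux differentiable in the real sense at every point, with a bounded real-linear
derivative `L` whose deviation from complex linearity is at most `k`:
`‖L (i h) - i L h‖ ≤ k ‖L h‖` for all `h`.  For `k = 0` the derivative is complex linear. -/
def GateauxDev (k : ℝ) (U : A0 → B0) : Prop :=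
  ∀ a, ∃ L : A0 →L[ℝ] B0,
    (∀ h, Tendsto (fun t : ℝ => t⁻¹ • (U (a + t • h) - U a)) (𝓝[≠] 0) (𝓝 (L h))) ∧
    ∀ h, ‖L (I • h) - I • L h‖ ≤ k * ‖L h‖

end Pool.Agent.P.MP_754066_an
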