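import Pool.Agent.P.MP_754066_an.Defs

namespace Pool.Agent.P.MP_754066_an

open Complex Filter Topology
open scoped ENNReal

abbrev Lp' (p : ℝ≥0∞) : Type := lp (fun _ : ℕ => ℂ) p

variable {p : ℝ≥0∞} [Fact (1 ≤ p)]

lemma p_ne_zero : p ≠ 0 := by
  have h : (1 : ℝ≥0∞) ≤ p := Fact.out
  intro h0
  rw [h0] at h
  simp at h

omit [Fact (1 ≤ p)] in
lemma memℓp_mul (m : ℕ → ℂ) (hm : ∀ n, ‖m n‖ ≤ 1) (c : Lp' p) :
    Memℓp (fun n => m n * c n) p := by
  refine Memℓp.mono' (lp.memℓp c) (fun n => ?_)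
  rw [norm_mul]
  exact mul_le_of_le_one_left (norm_nonneg _) (hm n)

/-- diagonal operator with a multiplier bounded by one -/
noncomputable def diag (m : ℕ → ℂ) (hm : ∀ n, ‖m n‖ ≤ 1) : Lp' p →L[ℂ] Lp' p :=
  LinearMap.mkContinuous
    { toFun := fun c => ⟨fun n => m n * c n, memℓp_mul m hm c⟩
      map_add' := fun c c' => by
        apply lp.ext; funext n
        simp [mul_add]
      map_smul' := fun a c => by
        apply lp.ext; funext n
        simp [mul_left_comm] } 1
    (fun c => by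
      rw [one_mul]
      apply lp.norm_mono p_ne_zero
      intro n
      show ‖m n * c n‖ ≤ ‖c n‖
      rw [norm_mul]
      exact mul_le_of_le_one_left (norm_nonneg _) (hm n))

lemma diag_apply (m : ℕ → ℂ) (hm : ∀ n, ‖m n‖ ≤ 1) (c : Lp' p) (n : ℕ) :
    (diag m hm c) n = m n * c n := rfl

lemma norm_diag_le (m : ℕ → ℂ) (hm : ∀ n, ‖m n‖ ≤ 1) (c : Lp' p) : ‖diag m hm c‖ ≤ ‖c‖ := by
  apply lp.norm_mono p_ne_zero
  intro n
  rw [diag_apply, norm_mul]
  exact mul_le_of_le_one_left (norm_nonneg _) (hm n)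

/-- the weight `4 ^ (-n z)` -/
noncomputable def wt (z : ℂ) (n : ℕ) : ℂ := cexp (-(n * Real.log 4) * z)

lemma norm_wt (z : ℂ) (n : ℕ) : ‖wt z n‖ = Real.exp (-(n * Real.log 4) * z.re) := by
  unfold wt
  rw [Complex.norm_exp]
  congr 1
  have : (-((n : ℂ) * (Real.log 4 : ℝ)) * z) = ((-(n * Real.log 4) : ℝ) : ℂ) * z := by
    push_cast; ring
  rw [this, re_ofReal_mul]

lemma norm_wt_le {z : ℂ} (hz : 0 ≤ z.re) (n : ℕ) : ‖wt z n‖ ≤ 1 := by
  rw [norm_wt, Real.exp_le_one_iff]
  have h4 : 0 ≤ Real.log 4 := Real.log_nonneg (by norm_num)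
  have : 0 ≤ (n * Real.log 4) * z.re := by positivity
  linarith

lemma wt_add (z w : ℂ) (n : ℕ) : wt (z + w) n = wt z n * wt w n := by
  unfold wt
  rw [← Complex.exp_add]; congr 1; ring

lemma wt_zero (n : ℕ) : wt 0 n = 1 := by simp [wt]

lemma wt_ne_zero (z : ℂ) (n : ℕ) : wt z n ≠ 0 := Complex.exp_ne_zero _

lemma wt_real (x : ℝ) (n : ℕ) : wt x n = (Real.exp (-(n * Real.log 4) * x) : ℝ) := by
  unfold wt
  rw [Complex.ofReal_exp]; congr 1; push_cast; ring

lemma exp_log4 (n : ℕ) : Real.exp (n * Real.log 4) = 4 ^ n := by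
  rw [Real.exp_nat_mul, Real.exp_log (by norm_num)]

lemma exp_log2 (n : ℕ) : Real.exp (n * Real.log 4 * (1 / 2)) = 2 ^ n := by
  have : Real.log 4 = 2 * Real.log 2 := by
    rw [show (4 : ℝ) = 2 ^ 2 by norm_num, Real.log_pow]; norm_num
  rw [this, show (n : ℝ) * (2 * Real.log 2) * (1 / 2) = n * Real.log 2 by ring,
    Real.exp_nat_mul, Real.exp_log (by norm_num)]

lemma wt_one (n : ℕ) : wt 1 n = ((((4 : ℝ) ^ n)⁻¹ : ℝ) : ℂ) := by
  have := wt_real 1 n
  rw [ofReal_one] at this
  rw [this, mul_one, Real.exp_neg, exp_log4]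

lemma wt_half (n : ℕ) : wt ((1 / 2 : ℝ) : ℂ) n = ((((2 : ℝ) ^ n)⁻¹ : ℝ) : ℂ) := by
  rw [wt_real, neg_mul, Real.exp_neg, exp_log2]

lemma differentiable_wt (n : ℕ) : Differentiable ℂ (fun z => wt z n) := by
  unfold wt
  fun_prop

/-- the inclusion of the weighted space -/
noncomputable def incl (p : ℝ≥0∞) [Fact (1 ≤ p)] : Lp' p →L[ℂ] Lp' p :=
  diag (wt 1) (norm_wt_le (by simp))

lemma incl_apply (c : Lp' p) (n : ℕ) : (incl p c) n = wt 1 n * c n := rfl

lemma incl_injective : Function.Injective (incl p) := by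
  intro c c' h
  apply lp.ext; funext n
  have := congrArg (fun x : Lp' p => x n) h
  simp only [incl_apply] at this
  exact mul_left_cancel₀ (wt_ne_zero 1 n) this

/-- the weight, cut off in the left half plane -/
noncomputable def wt' (z : ℂ) (n : ℕ) : ℂ := if 0 ≤ z.re then wt z n else 0

lemma norm_wt'_le (z : ℂ) (n : ℕ) : ‖wt' z n‖ ≤ 1 := by
  unfold wt'
  split_ifs with h
  · exact norm_wt_le h n
  · simp

/-- the analytic family `z ↦ (4 ^ (-n z) c n)_n` -/
noncomputable def fam (c : Lp' 2) (z : ℂ) : Lp' 2 := diag (wt' z) (norm_wt'_le z) c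

lemma fam_apply (c : Lp' 2) {z : ℂ} (hz : 0 ≤ z.re) (n : ℕ) : fam c z n = wt z n * c n := by
  unfold fam
  rw [diag_apply, wt', if_pos hz]

lemma norm_fam_le (c : Lp' 2) (z : ℂ) : ‖fam c z‖ ≤ ‖c‖ := norm_diag_le _ _ _

lemma fam_unif (c : Lp' 2) :
    TendstoUniformlyOn
      (fun (s : Finset ℕ) (z : ℂ) => ∑ n ∈ s, wt z n • (lp.single 2 n (c n) : Lp' 2))
      (fam c) atTop {z | 0 ≤ z.re} := by
  rw [Metric.tendstoUniformlyOn_iff]
  intro ε hε
  have h := lp.hasSum_single (E := fun _ : ℕ => ℂ) (p := 2) (by simp) c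
  have h2 := (Metric.tendsto_nhds.mp h) ε hε
  filter_upwards [h2] with s hs z hz
  have h3 : ∑ n ∈ s, wt z n • (lp.single 2 n (c n) : Lp' 2) =
      diag (wt' z) (norm_wt'_le z) (∑ n ∈ s, (lp.single 2 n (c n) : Lp' 2)) := by
    rw [map_sum]
    apply Finset.sum_congr rfl
    intro n _
    apply lp.ext; funext m
    rw [diag_apply, lp.coeFn_smul, Pi.smul_apply, wt', if_pos hz, smul_eq_mul]
    by_cases hm : m = n
    · rw [hm]
    · rw [lp.single_apply_ne _ _ _ hm]; simp
  rw [h3, dist_eq_norm, fam, ← map_sub]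
  refine (norm_diag_le _ _ _).trans_lt ?_
  rw [← dist_eq_norm, dist_comm]
  exact hs

lemma fam_continuousOn (c : Lp' 2) : ContinuousOn (fam c) {z | 0 ≤ z.re} := by
  apply (fam_unif c).continuousOn
  apply Filter.Eventually.frequently
  filter_upwards with s
  apply Continuous.continuousOn
  apply continuous_finsetSum
  intro n _
  exact (differentiable_wt n).continuous.smul continuous_const

lemma fam_differentiableOn (c : Lp' 2) : DifferentiableOn ℂ (fam c) {z | 0 < z.re} := by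
  have hopen : IsOpen {z : ℂ | 0 < z.re} := isOpen_lt continuous_const continuous_re
  have h := ((fam_unif c).mono (show {z : ℂ | 0 < z.re} ⊆ {z | 0 ≤ z.re} from
    fun z (hz : 0 < z.re) => hz.le)).tendstoLocallyUniformlyOn
  apply h.differentiableOn _ hopen
  filter_upwards with s
  apply Differentiable.differentiableOn
  apply Differentiable.fun_sum
  intro n _
  exact (differentiable_wt n).smul_const _

lemma norm_gauss (x t : ℝ) :
    ‖cexp (((x : ℂ) + t * I - (1 / 2 : ℝ)) ^ 2)‖ = Real.exp ((x - 1 / 2) ^ 2 - t ^ 2) := by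
  rw [Complex.norm_exp]
  congr 1
  simp [pow_two]

lemma tendsto_gauss : Tendsto (fun t : ℝ => Real.exp (1 / 4 - t ^ 2)) (cocompact ℝ) (𝓝 0) := by
  apply Real.tendsto_exp_atBot.comp
  have h : Tendsto (fun t : ℝ => t ^ 2) (cocompact ℝ) atTop := by
    have h1 : Tendsto (fun t : ℝ => ‖t‖) (cocompact ℝ) atTop := tendsto_norm_cocompact_atTop
    have h2 := (tendsto_pow_atTop (α := ℝ) (n := 2) (by norm_num)).comp h1
    refine h2.congr (fun t => ?_)
    simp
  exact tendsto_atBot_add_const_left _ _ (tendsto_neg_atTop_atBot.comp h)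

/-- `(2 ^ (-n) c n)_n` lies in the interpolation space of the weighted `ℓ²` couple -/
lemma fam_mem_interp (c : Lp' 2) : fam c ((1 / 2 : ℝ) : ℂ) ∈ interp (incl 2) (1 / 2) := by
  refine ⟨fun z => cexp ((z - (1 / 2 : ℝ)) ^ 2) • fam c z,
    fun t => cexp ((1 + t * I - (1 / 2 : ℝ)) ^ 2) • fam c (t * I), ⟨?_, ?_, ?_, ?_, ?_, ?_, ?_⟩, ?_⟩
  · exact ContinuousOn.fun_smul (by fun_prop) ((fam_continuousOn c).mono fun z hz => hz.1)
  · exact DifferentiableOn.fun_smul (by fun_prop)
      ((fam_differentiableOn c).mono fun z hz => hz.1)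
  · refine ⟨Real.exp (1 / 4) * ‖c‖, fun z h0 h1 => ?_⟩
    rw [norm_smul]
    apply mul_le_mul _ (norm_fam_le c z) (norm_nonneg _) (by positivity)
    have := norm_gauss z.re z.im
    rw [re_add_im] at this
    rw [this, Real.exp_le_exp]
    nlinarith [sq_nonneg z.im]
  · intro t
    have : fam c (1 + t * I) = incl 2 (fam c (t * I)) := by
      apply lp.ext; funext n
      rw [incl_apply, fam_apply c (by simp), fam_apply c (by simp), wt_add, mul_assoc]
    simp only [map_smul, this]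
  · refine Continuous.fun_smul (by fun_prop) ?_
    apply (fam_continuousOn c).comp_continuous (by fun_prop)
    intro t; simp
  · rw [tendsto_zero_iff_norm_tendsto_zero]
    have h := tendsto_gauss.mul_const ‖c‖
    rw [zero_mul] at h
    refine squeeze_zero (fun t => norm_nonneg _) (fun t => ?_) h
    rw [norm_smul]
    apply mul_le_mul _ (norm_fam_le c _) (norm_nonneg _) (by positivity)
    have := norm_gauss 0 t
    rw [ofReal_zero, zero_add] at this
    rw [this]; norm_num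
  · rw [tendsto_zero_iff_norm_tendsto_zero]
    have h := tendsto_gauss.mul_const ‖c‖
    rw [zero_mul] at h
    refine squeeze_zero (fun t => norm_nonneg _) (fun t => ?_) h
    rw [norm_smul]
    apply mul_le_mul _ (norm_fam_le c _) (norm_nonneg _) (by positivity)
    have := norm_gauss 1 t
    rw [ofReal_one] at this
    rw [this]; norm_num
  · simp

lemma sum_norm_le (x : Lp' 1) (s : Finset ℕ) : ∑ n ∈ s, ‖x n‖ ≤ ‖x‖ := by
  have := lp.sum_rpow_le_norm_rpow (p := 1) (by simp) x s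
  simpa using this

lemma bdd_of_tendsto {E : Type} [NormedAddCommGroup E] {g : ℝ → E} (h5 : Continuous g)
    (h7 : Tendsto g (cocompact ℝ) (𝓝 0)) : ∃ D : ℝ, ∀ t, ‖g t‖ ≤ D := by
  have h := (h7.isCompact_insert_range_of_cocompact h5).isBounded
  obtain ⟨D, hD⟩ := h.exists_norm_le
  exact ⟨D, fun t => hD _ (Set.mem_insert_of_mem _ ⟨t, rfl⟩)⟩

/-- three lines bound for the weighted `ℓ¹` couple -/
lemma bound_of_mem_interp {b : Lp' 1} (hb : b ∈ interp (incl 1) (1 / 2)) :
    ∃ C : ℝ, ∀ N : ℕ, ‖∑ n ∈ Finset.range N, (2 : ℂ) ^ n * b n‖ ≤ C := by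
  obtain ⟨f, g, ⟨h1, h2, ⟨C, hC⟩, h4, h5, -, h7⟩, h8⟩ := hb
  obtain ⟨D, hD⟩ := bdd_of_tendsto h5 h7
  refine ⟨C ^ (1 - (1 / 2 : ℝ)) * D ^ (1 / 2 : ℝ), fun N => ?_⟩
  set φ : ℂ → ℂ := fun z => ∑ n ∈ Finset.range N, wt (-z) n * (f z) n with hφ
  have hev : ∀ (n : ℕ) (x : Lp' 1), lp.evalCLM ℂ (fun _ : ℕ => ℂ) 1 n x = x n := fun _ _ => rfl
  have hd : DiffContOnCl ℂ φ (HadamardThreeLines.verticalStrip 0 1) := by
    constructor
    · apply DifferentiableOn.fun_sum
      intro n _
      apply DifferentiableOn.fun_mul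
      · exact ((differentiable_wt n).comp differentiable_neg).differentiableOn
      · exact (lp.evalCLM ℂ (fun _ : ℕ => ℂ) 1 n).differentiable.comp_differentiableOn h2
    · rw [HadamardThreeLines.verticalStrip, closure_preimage_re, closure_Ioo zero_ne_one]
      apply continuousOn_finsetSum
      intro n _
      apply ContinuousOn.fun_mul
      · exact ((differentiable_wt n).comp differentiable_neg).continuous.continuousOn
      · exact (lp.evalCLM ℂ (fun _ : ℕ => ℂ) 1 n).continuous.comp_continuousOn h1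
  have hB : BddAbove ((norm ∘ φ) '' HadamardThreeLines.verticalClosedStrip 0 1) := by
    refine ⟨∑ n ∈ Finset.range N, 4 ^ n * C, ?_⟩
    rintro _ ⟨z, hz, rfl⟩
    refine (norm_sum_le _ _).trans (Finset.sum_le_sum fun n _ => ?_)
    rw [norm_mul]
    apply mul_le_mul _ ((lp.norm_apply_le_norm (by simp) _ n).trans (hC z hz.1 hz.2))
      (norm_nonneg _) (by positivity)
    rw [norm_wt, ← exp_log4, Real.exp_le_exp, neg_re]
    have h4 : 0 ≤ Real.log 4 := Real.log_nonneg (by norm_num)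
    have h5 : 0 ≤ n * Real.log 4 := by positivity
    nlinarith [hz.2]
  have ha : ∀ z ∈ re ⁻¹' {0}, ‖φ z‖ ≤ C := by
    intro z hz
    have hz' : z.re = 0 := hz
    refine (norm_sum_le _ _).trans (le_trans (Finset.sum_le_sum fun n _ => ?_)
      ((sum_norm_le (f z) (Finset.range N)).trans (hC z hz'.ge (by rw [hz']; norm_num))))
    rw [norm_mul]
    exact mul_le_of_le_one_left (norm_nonneg _) (norm_wt_le (by simp [hz']) n)
  have hb : ∀ z ∈ re ⁻¹' {1}, ‖φ z‖ ≤ D := by
    intro z hz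
    have hz' : z.re = 1 := hz
    have hz2 : z = 1 + z.im * I := by
      conv_lhs => rw [← re_add_im z, hz']
      simp
    refine (norm_sum_le _ _).trans (le_trans (Finset.sum_le_sum fun n _ => ?_)
      ((sum_norm_le (g z.im) (Finset.range N)).trans (hD _)))
    have : f z = incl 1 (g z.im) := by rw [← h4, ← hz2]
    rw [this, incl_apply, ← mul_assoc, ← wt_add, norm_mul]
    exact mul_le_of_le_one_left (norm_nonneg _) (norm_wt_le (by simp [hz']) n)
  have h := HadamardThreeLines.norm_le_interp_of_mem_verticalClosedStrip₀₁' φ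
    (z := ((1 / 2 : ℝ) : ℂ)) (by
      simp only [HadamardThreeLines.verticalClosedStrip, Set.mem_preimage, ofReal_re,
        Set.mem_Icc]
      norm_num) hd hB ha hb
  rw [ofReal_re] at h
  refine le_trans (le_of_eq ?_) h
  congr 1
  apply Finset.sum_congr rfl
  intro n _
  rw [h8]
  congr 1
  rw [← ofReal_neg, wt_real, neg_mul_neg, exp_log2]
  push_cast; rfl

end Pool.Agent.P.MP_754066_an
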