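import Pool.Agent.P.MP_754066_an.Curve

namespace Pool.Agent.P.MP_754066_an

open Complex Filter Topology
open scoped ENNReal

/-- the exponent `c = 1 / (2 θ)` -/
noncomputable def cc (θ : ℝ) : ℝ := 1 / (2 * θ)

lemma cc_pos {θ : ℝ} (h0 : 0 < θ) : 0 < cc θ := by unfold cc; positivity

lemma cc_mul {θ : ℝ} (h0 : 0 < θ) : cc θ * θ = 1 / 2 := by unfold cc; field_simp

lemma cc_gt {θ : ℝ} (h0 : 0 < θ) (h1 : θ < 1) : 1 / 2 < cc θ := by
  unfold cc
  exact one_div_lt_one_div_of_lt (by positivity) (by linarith)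

/-- the inclusion of the weighted space, weights `4 ^ (c n)` -/
noncomputable def inclc (p : ℝ≥0∞) [Fact (1 ≤ p)] (c : ℝ) : Lp' p →L[ℂ] Lp' p :=
  diag (wt (|c| : ℝ)) (norm_wt_le (by simp))

lemma inclc_apply {p : ℝ≥0∞} [Fact (1 ≤ p)] {c : ℝ} (hc : 0 < c) (x : Lp' p) (n : ℕ) :
    (inclc p c x) n = wt c n * x n := by
  show wt (|c| : ℝ) n * x n = _
  rw [abs_of_pos hc]

lemma inclc_injective {p : ℝ≥0∞} [Fact (1 ≤ p)] {c : ℝ} (hc : 0 < c) :
    Function.Injective (inclc p c) := by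
  intro x x' h
  apply lp.ext; funext n
  have := congrArg (fun x : Lp' p => x n) h
  simp only [inclc_apply hc] at this
  exact mul_left_cancel₀ (wt_ne_zero c n) this

lemma norm_gauss' (θ x t : ℝ) :
    ‖cexp (((x : ℂ) + t * I - θ) ^ 2)‖ = Real.exp ((x - θ) ^ 2 - t ^ 2) := by
  rw [Complex.norm_exp]
  congr 1
  simp [pow_two]

lemma tendsto_gauss' (D : ℝ) :
    Tendsto (fun t : ℝ => Real.exp (1 - t ^ 2) * D) (cocompact ℝ) (𝓝 0) := by
  have h := (tendsto_gauss.const_mul (Real.exp (3 / 4))).mul_const D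
  rw [mul_zero, zero_mul] at h
  refine h.congr fun t => ?_
  rw [← Real.exp_add]; congr 2; ring

lemma fam_mem_interp' {θ : ℝ} (h0 : 0 < θ) (h1 : θ < 1) (v : Lp' 2) :
    fam v ((1 / 2 : ℝ) : ℂ) ∈ interp (inclc 2 (cc θ)) θ := by
  have hc := cc_pos h0
  have hre : ∀ z : ℂ, ((cc θ : ℂ) * z).re = cc θ * z.re := fun z => re_ofReal_mul _ _
  refine ⟨fun z => cexp ((z - θ) ^ 2) • fam v (cc θ * z),
    fun t => cexp ((1 + t * I - θ) ^ 2) • fam v (cc θ * (t * I)),
      ⟨?_, ?_, ?_, ?_, ?_, ?_, ?_⟩, ?_⟩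
  · refine ContinuousOn.fun_smul (by fun_prop) ?_
    refine (fam_continuousOn v).comp (by fun_prop) fun z hz => ?_
    show 0 ≤ ((cc θ : ℂ) * z).re
    rw [hre]; exact mul_nonneg hc.le hz.1
  · refine DifferentiableOn.fun_smul (by fun_prop) ?_
    refine (fam_differentiableOn v).comp (by fun_prop) fun z hz => ?_
    show 0 < ((cc θ : ℂ) * z).re
    rw [hre]; exact mul_pos hc hz.1
  · refine ⟨Real.exp 1 * ‖v‖, fun z hz0 hz1 => ?_⟩
    rw [norm_smul]
    apply mul_le_mul _ (norm_fam_le v _) (norm_nonneg _) (by positivity)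
    have := norm_gauss' θ z.re z.im
    rw [re_add_im] at this
    rw [this, Real.exp_le_exp]
    nlinarith [sq_nonneg z.im]
  · intro t
    have : fam v (cc θ * (1 + t * I)) = inclc 2 (cc θ) (fam v (cc θ * (t * I))) := by
      apply lp.ext; funext n
      rw [inclc_apply hc, fam_apply v (by rw [hre]; simp [hc.le]),
        fam_apply v (by rw [hre]; simp), mul_add, mul_one, wt_add, mul_assoc]
    simp only [map_smul, this]
  · refine Continuous.fun_smul (by fun_prop) ?_
    apply (fam_continuousOn v).comp_continuous (by fun_prop)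
    intro t
    show 0 ≤ ((cc θ : ℂ) * (t * I)).re
    rw [hre]; simp
  · rw [tendsto_zero_iff_norm_tendsto_zero]
    refine squeeze_zero (fun t => norm_nonneg _) (fun t => ?_) (tendsto_gauss' ‖v‖)
    rw [norm_smul]
    apply mul_le_mul _ (norm_fam_le v _) (norm_nonneg _) (by positivity)
    have := norm_gauss' θ 0 t
    rw [ofReal_zero, zero_add] at this
    rw [this, Real.exp_le_exp]
    nlinarith
  · rw [tendsto_zero_iff_norm_tendsto_zero]
    refine squeeze_zero (fun t => norm_nonneg _) (fun t => ?_) (tendsto_gauss' ‖v‖)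
    rw [norm_smul]
    apply mul_le_mul _ (norm_fam_le v _) (norm_nonneg _) (by positivity)
    have := norm_gauss' θ 1 t
    rw [ofReal_one] at this
    rw [this, Real.exp_le_exp]
    nlinarith
  · simp only [sub_self, ne_eq, OfNat.ofNat_ne_zero, not_false_eq_true, zero_pow,
      Complex.exp_zero, one_smul]
    rw [← ofReal_mul, cc_mul h0]

/-- three lines bound for the weighted `ℓ¹` couple -/
lemma bound_of_mem_interp' {θ : ℝ} (h0 : 0 < θ) (h1' : θ < 1) {b : Lp' 1}
    (hb : b ∈ interp (inclc 1 (cc θ)) θ) :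
    ∃ C : ℝ, ∀ N : ℕ, ‖∑ n ∈ Finset.range N, (2 : ℂ) ^ n * b n‖ ≤ C := by
  have hc := cc_pos h0
  have hre : ∀ z : ℂ, ((cc θ : ℂ) * z).re = cc θ * z.re := fun z => re_ofReal_mul _ _
  obtain ⟨f, g, ⟨h1, h2, ⟨C, hC⟩, h4, h5, -, h7⟩, h8⟩ := hb
  obtain ⟨D, hD⟩ := bdd_of_tendsto h5 h7
  refine ⟨C ^ (1 - θ) * D ^ θ, fun N => ?_⟩
  set φ : ℂ → ℂ := fun z => ∑ n ∈ Finset.range N, wt (-(cc θ * z)) n * (f z) n with hφ
  have hw : ∀ n, Differentiable ℂ (fun z : ℂ => wt (-(cc θ * z)) n) := fun n =>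
    (differentiable_wt n).comp (by fun_prop)
  have hd : DiffContOnCl ℂ φ (HadamardThreeLines.verticalStrip 0 1) := by
    constructor
    · apply DifferentiableOn.fun_sum
      intro n _
      apply DifferentiableOn.fun_mul
      · exact (hw n).differentiableOn
      · exact (lp.evalCLM ℂ (fun _ : ℕ => ℂ) 1 n).differentiable.comp_differentiableOn h2
    · rw [HadamardThreeLines.verticalStrip, closure_preimage_re, closure_Ioo zero_ne_one]
      apply continuousOn_finsetSum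
      intro n _
      apply ContinuousOn.fun_mul
      · exact (hw n).continuous.continuousOn
      · exact (lp.evalCLM ℂ (fun _ : ℕ => ℂ) 1 n).continuous.comp_continuousOn h1
  have hB : BddAbove ((norm ∘ φ) '' HadamardThreeLines.verticalClosedStrip 0 1) := by
    refine ⟨∑ n ∈ Finset.range N, Real.exp (n * Real.log 4 * cc θ) * C, ?_⟩
    rintro _ ⟨z, hz, rfl⟩
    refine (norm_sum_le _ _).trans (Finset.sum_le_sum fun n _ => ?_)
    rw [norm_mul]
    apply mul_le_mul _ ((lp.norm_apply_le_norm (by simp) _ n).trans (hC z hz.1 hz.2))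
      (norm_nonneg _) (by positivity)
    rw [norm_wt, Real.exp_le_exp, neg_re, hre, neg_mul_neg]
    have h4 : 0 ≤ Real.log 4 := Real.log_nonneg (by norm_num)
    apply mul_le_mul_of_nonneg_left _ (by positivity)
    exact mul_le_of_le_one_right hc.le hz.2
  have ha : ∀ z ∈ re ⁻¹' {0}, ‖φ z‖ ≤ C := by
    intro z hz
    have hz' : z.re = 0 := hz
    refine (norm_sum_le _ _).trans (le_trans (Finset.sum_le_sum fun n _ => ?_)
      ((sum_norm_le (f z) (Finset.range N)).trans (hC z hz'.ge (by rw [hz']; norm_num))))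
    rw [norm_mul]
    exact mul_le_of_le_one_left (norm_nonneg _) (norm_wt_le (by rw [neg_re, hre, hz']; simp) n)
  have hb : ∀ z ∈ re ⁻¹' {1}, ‖φ z‖ ≤ D := by
    intro z hz
    have hz' : z.re = 1 := hz
    have hz2 : z = 1 + z.im * I := by
      conv_lhs => rw [← re_add_im z, hz']
      simp
    refine (norm_sum_le _ _).trans (le_trans (Finset.sum_le_sum fun n _ => ?_)
      ((sum_norm_le (g z.im) (Finset.range N)).trans (hD _)))
    have : f z = inclc 1 (cc θ) (g z.im) := by rw [← h4, ← hz2]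
    rw [this, inclc_apply hc, ← mul_assoc, ← wt_add, norm_mul]
    exact mul_le_of_le_one_left (norm_nonneg _)
      (norm_wt_le (by rw [add_re, neg_re, hre, hz']; simp) n)
  have h := HadamardThreeLines.norm_le_interp_of_mem_verticalClosedStrip₀₁' φ
    (z := (θ : ℂ)) (by
      simp only [HadamardThreeLines.verticalClosedStrip, Set.mem_preimage, ofReal_re,
        Set.mem_Icc]
      exact ⟨h0.le, h1'.le⟩) hd hB ha hb
  rw [ofReal_re] at h
  refine le_trans (le_of_eq ?_) h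
  congr 1
  apply Finset.sum_congr rfl
  intro n _
  rw [h8]
  congr 1
  rw [← ofReal_mul, cc_mul h0, ← ofReal_neg, wt_real, neg_mul_neg, exp_log2]
  push_cast; rfl

lemma geom_sum_bound {q : ℝ} (hq : 1 < q) : ∃ C : ℝ, 0 ≤ C ∧ ∀ N : ℕ,
    ∑ n ∈ Finset.range (N + 1), q ^ n * ((n : ℝ) + 1)⁻¹ ≤ C * (q ^ N * ((N : ℝ) + 1)⁻¹) := by
  have hq0 : 0 < q := by linarith
  have hr0 : 0 ≤ q⁻¹ := by positivity
  have hr1 : q⁻¹ < 1 := inv_lt_one_of_one_lt₀ hq
  have hs : Summable (fun m : ℕ => ((m : ℝ) + 1) * q⁻¹ ^ m) := by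
    have h1 := summable_pow_mul_geometric_of_norm_lt_one (R := ℝ) 1 (r := q⁻¹)
      (by rwa [Real.norm_eq_abs, abs_of_nonneg hr0])
    have h2 := summable_geometric_of_lt_one hr0 hr1
    refine (h1.add h2).congr fun m => ?_
    ring
  refine ⟨∑' m : ℕ, ((m : ℝ) + 1) * q⁻¹ ^ m, tsum_nonneg fun m => by positivity, fun N => ?_⟩
  refine le_trans ?_ (mul_le_mul_of_nonneg_right
    (hs.sum_le_tsum (Finset.range (N + 1)) fun m _ => by positivity) (by positivity))
  rw [← Finset.sum_range_reflect, Finset.sum_mul]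
  apply Finset.sum_le_sum
  intro m hm
  rw [Finset.mem_range] at hm
  obtain ⟨j, rfl⟩ : ∃ j, N = m + j := ⟨N - m, by omega⟩
  rw [show m + j + 1 - 1 - m = j by omega, pow_add]
  have e : ((m : ℝ) + 1) * q⁻¹ ^ m * (q ^ m * q ^ j * (((m + j : ℕ) : ℝ) + 1)⁻¹) =
      q ^ j * (((m : ℝ) + 1) / ((m : ℝ) + j + 1)) := by
    push_cast
    rw [inv_pow]
    field_simp
  rw [e]
  apply mul_le_mul_of_nonneg_left _ (by positivity)
  rw [le_div_iff₀ (by positivity), inv_mul_le_iff₀ (by positivity)]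
  have : (0 : ℝ) ≤ m * j := by positivity
  nlinarith

lemma UU_bound' {θ : ℝ} (h0 : 0 < θ) (h1 : θ < 1) : ∃ C : ℝ, 0 ≤ C ∧ ∀ x : Lp' 2,
    ∃ y : Lp' 1, inclc 1 (cc θ) y = UU (inclc 2 (cc θ) x) ∧ ‖y‖ ≤ C * ‖x‖ := by
  have hc := cc_pos h0
  set R : ℝ := Real.exp (Real.log 4 * cc θ) with hR
  have hR0 : 0 < R := Real.exp_pos _
  have hR2 : 2 < R := by
    have h2 := exp_log2 1
    rw [Nat.cast_one, one_mul, pow_one] at h2
    rw [← h2, hR, Real.exp_lt_exp]
    exact mul_lt_mul_of_pos_left (cc_gt h0 h1) (Real.log_pos (by norm_num))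
  have hwt : ∀ n : ℕ, wt (cc θ) n = (((R ^ n)⁻¹ : ℝ) : ℂ) := by
    intro n
    rw [wt_real, hR, ← Real.exp_nat_mul, ← Real.exp_neg]
    congr 2; ring
  obtain ⟨C, hC0, hC⟩ := geom_sum_bound (q := R / 2) (by linarith)
  refine ⟨2 * C, by positivity, fun x => ?_⟩
  set s := ‖inclc 2 (cc θ) x - pt‖ with hs
  set y : ℕ → ℂ := fun n => ((R ^ n * (bb n * cut (ep n) s) : ℝ) : ℂ) with hy
  have hyn : ∀ n, ‖y n‖ = R ^ n * (bb n * cut (ep n) s) := by
    intro n
    rw [hy]
    simp only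
    rw [Complex.norm_real, Real.norm_eq_abs, abs_of_nonneg]
    exact mul_nonneg (by positivity) (mul_nonneg (bb_pos n).le (cut_nonneg _ _))
  have hRb : ∀ n : ℕ, R ^ n * bb n = (R / 2) ^ n * ((n : ℝ) + 1)⁻¹ := by
    intro n
    unfold bb
    rw [div_pow]; field_simp
  have hsum : ∀ N, ∑ n ∈ Finset.range N, ‖y n‖ ≤ 2 * C * ‖x‖ := by
    intro N
    induction N with
    | zero => simp only [Finset.range_zero, Finset.sum_empty]; positivity
    | succ N ih =>
      by_cases h : ep N ≤ s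
      · rw [Finset.sum_range_succ, hyn N, cut_zero (ep_pos N) h]
        simpa using ih
      · push Not at h
        have h1 : ∑ n ∈ Finset.range (N + 1), ‖y n‖ ≤
            ∑ n ∈ Finset.range (N + 1), (R / 2) ^ n * ((n : ℝ) + 1)⁻¹ := by
          apply Finset.sum_le_sum
          intro n _
          rw [hyn]
          have h2 : bb n * cut (ep n) s ≤ bb n :=
            mul_le_of_le_one_right (bb_pos n).le (cut_le_one _ _)
          exact (mul_le_mul_of_nonneg_left h2 (by positivity)).trans (le_of_eq (hRb n))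
        refine h1.trans ((hC N).trans ?_)
        have h2 : ‖(inclc 2 (cc θ) x - pt) N‖ ≤ s := lp.norm_apply_le_norm (by simp) _ N
        rw [lp.coeFn_sub, Pi.sub_apply, inclc_apply hc, pt_apply] at h2
        have h3 : ‖((2 * ep N : ℝ) : ℂ)‖ ≤ ‖wt (cc θ) N * x N‖ +
            ‖wt (cc θ) N * x N - ((2 * ep N : ℝ) : ℂ)‖ := norm_le_insert _ _
        have h4 : ‖x N‖ ≤ ‖x‖ := lp.norm_apply_le_norm (by simp) _ N
        rw [Complex.norm_real, Real.norm_eq_abs, abs_of_pos (by linarith [ep_pos N]), norm_mul,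
          hwt, Complex.norm_real, Real.norm_eq_abs, abs_of_pos (by positivity)] at h3
        rw [hwt] at h2
        have h5 : ep N ≤ (R ^ N)⁻¹ * ‖x‖ := by
          have : (R ^ N)⁻¹ * ‖x N‖ ≤ (R ^ N)⁻¹ * ‖x‖ :=
            mul_le_mul_of_nonneg_left h4 (by positivity)
          linarith
        have h6 : R ^ N * ep N ≤ ‖x‖ := by
          have := mul_le_mul_of_nonneg_left h5 (by positivity : (0 : ℝ) ≤ R ^ N)
          rwa [← mul_assoc, mul_inv_cancel₀ (by positivity), one_mul] at this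
        have h7 : R ^ N * bb N ≤ R ^ N * (2 * ep N) :=
          mul_le_mul_of_nonneg_left (bb_le N) (by positivity)
        rw [← hRb]
        have h8 : R ^ N * bb N ≤ 2 * ‖x‖ := by linarith
        nlinarith
  have hF : ∀ F : Finset ℕ, ∑ n ∈ F, ‖y n‖ ^ (1 : ENNReal).toReal ≤ 2 * C * ‖x‖ := by
    intro F
    simp only [ENNReal.toReal_one, Real.rpow_one]
    refine le_trans ?_ (hsum (F.sup id + 1))
    apply Finset.sum_le_sum_of_subset_of_nonneg
    · intro n hn
      rw [Finset.mem_range]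
      exact Nat.lt_succ_of_le (Finset.le_sup (f := id) hn)
    · intro n _ _; exact norm_nonneg _
  refine ⟨⟨y, memℓp_gen' hF⟩, ?_, ?_⟩
  · apply lp.ext; funext n
    rw [inclc_apply hc, UU, gam_apply, hwt]
    show _ * y n = _
    rw [hy]
    simp only
    rw [← ofReal_mul, ← mul_assoc, inv_mul_cancel₀ (by positivity), one_mul]
  · apply lp.norm_le_of_forall_sum_le (by simp) (by positivity)
    intro F
    have := hF F
    simpa using this

lemma pt_mem' {θ : ℝ} (h0 : 0 < θ) (h1 : θ < 1) : pt ∈ interp (inclc 2 (cc θ)) θ :=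
  fam_mem_interp' h0 h1 _

lemma UU_pt_notMem' {θ : ℝ} (h0 : 0 < θ) (h1' : θ < 1) {ε : ℝ} (hε : 0 < ε) :
    ε • UU pt ∉ interp (inclc 1 (cc θ)) θ := by
  intro h
  obtain ⟨C, hC⟩ := bound_of_mem_interp' h0 h1' h
  have h1 : ∀ N : ℕ, ∑ n ∈ Finset.range N, (2 : ℂ) ^ n * (ε • UU pt) n =
      ((ε * ∑ n ∈ Finset.range N, (1 / ((n : ℝ) + 1)) : ℝ) : ℂ) := by
    intro N
    rw [Finset.mul_sum, ofReal_sum]
    apply Finset.sum_congr rfl
    intro n _
    rw [lp.coeFn_smul, Pi.smul_apply, UU, gam_apply, sub_self, norm_zero,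
      cut_one (ep_pos n) (half_pos (ep_pos n)).le, bb, Complex.real_smul]
    push_cast
    field_simp
  obtain ⟨N, hN⟩ :=
    (Real.tendsto_sum_range_one_div_nat_succ_atTop.eventually_gt_atTop (C / ε)).exists
  have h2 := hC N
  rw [h1, Complex.norm_real, Real.norm_eq_abs] at h2
  rw [div_lt_iff₀' hε] at hN
  linarith [le_abs_self (ε * ∑ n ∈ Finset.range N, (1 / ((n : ℝ) + 1)))]

end Pool.Agent.P.MP_754066_an
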