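import Pool.Agent.Results.MP_754066_an.Threshold

open Pool.Agent.P.MP_754066_an

/-- The earlier, weaker form (literal negation of Q1), as a corollary of the threshold theorem. -/
theorem Pool.Agent.P.MP_754066_an.not_Q1 :
    ¬ ∀ (A0 A1 B0 B1 : Type)
      [NormedAddCommGroup A0] [NormedSpace ℂ A0] [CompleteSpace A0]
      [NormedAddCommGroup A1] [NormedSpace ℂ A1] [CompleteSpace A1]
      [NormedAddCommGroup B0] [NormedSpace ℂ B0] [CompleteSpace B0]
      [NormedAddCommGroup B1] [NormedSpace ℂ B1] [CompleteSpace B1]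
      (jA : A1 →L[ℂ] A0) (jB : B1 →L[ℂ] B0) (θ : ℝ) (U : A0 → B0) (M0 M1 : ℝ),
      Function.Injective jA → Function.Injective jB → 0 < θ → θ < 1 →
      (∀ a b, ‖U a - U b‖ ≤ M0 * ‖a - b‖) →
      (∀ x, ∃ y, jB y = U (jA x) ∧ ‖y‖ ≤ M1 * ‖x‖) →
      RealGateaux U →
      ∀ a ∈ interp jA θ, U a ∈ interp jB θ := by
  intro h
  have h2 := (Pool.Agent.Results.MP_754066_an.Threshold.result (1 / 2) 1 (by norm_num)
    (by norm_num) (by norm_num)).out 2 0
  refine one_ne_zero (h2.mp ?_)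
  intro A0 A1 _ _ _ _ _ _ j U M0 M1 hj c1 c2 _ c3 a ha
  exact h A0 A1 A0 A1 j j (1 / 2) U M0 M1 hj hj (by norm_num) (by norm_num) c1 c2
    (fun a => (c3 a).imp fun _ hL => hL.1) a ha
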