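import Pool.Agent.P.MP_754066_an.Defs2
import Pool.Agent.P.MP_754066_an.Diag2

namespace Pool.Agent.P.MP_754066_an

open Complex Filter Topology

lemma gam_contDiffAt {s : ℝ} (hs : 0 < s) : ContDiffAt ℝ 1 gam s := by
  obtain ⟨N, hN⟩ := eventually_atTop.mp (ep_tendsto.eventually (gt_mem_nhds (half_pos hs)))
  have heq : gam =ᶠ[𝓝 s] fun u => ∑ n ∈ Finset.range N,
      cut (ep n) u • (lp.single 1 n (bb n : ℂ) : Lp' 1) := by
    filter_upwards [lt_mem_nhds (half_lt_self hs)] with u hu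
    apply lp.ext; funext m
    rw [gam_apply, lp.coeFn_sum, Finset.sum_apply]
    by_cases hm : m < N
    · rw [Finset.sum_eq_single m]
      · rw [lp.coeFn_smul, Pi.smul_apply, lp.single_apply_self]
        simp [mul_comm]
      · intro n _ hn
        rw [lp.coeFn_smul, Pi.smul_apply, lp.single_apply_ne _ _ _ hn.symm, smul_zero]
      · intro h; exact absurd (Finset.mem_range.mpr hm) h
    · rw [cut_zero (ep_pos m) (by linarith [hN m (by omega)])]
      rw [Finset.sum_eq_zero]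
      · simp
      · intro n hn
        rw [Finset.mem_range] at hn
        rw [lp.coeFn_smul, Pi.smul_apply, lp.single_apply_ne _ _ _ (by omega), smul_zero]
  refine ContDiffAt.congr_of_eventuallyEq ?_ heq
  apply ContDiffAt.sum
  intro n _
  have h : ContDiffAt ℝ 1 (fun u => cut (ep n) u) s := by
    unfold cut
    apply ContDiffAt.comp (g := Real.smoothTransition) s
    · exact (Real.smoothTransition.contDiff (n := 1)).contDiffAt
    · fun_prop
  exact h.smul contDiffAt_const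

lemma UU_contDiffAt {x : Lp' 2} (hx : x ≠ pt) : ContDiffAt ℝ 1 UU x := by
  have h1 : x - pt ≠ 0 := sub_ne_zero.mpr hx
  have h2 : ContDiffAt ℝ 1 (fun y : Lp' 2 => ‖y - pt‖) x :=
    ContDiffAt.norm ℂ (by fun_prop) h1
  exact (gam_contDiffAt (norm_pos_iff.mpr h1)).comp x h2

lemma UU_local_lip {c : ℝ} (hc : 0 < c) : ∃ r : ℝ, 0 < r ∧ ∀ x y, ‖x - pt‖ < r → ‖y - pt‖ < r →
    ‖UU x - UU y‖ ≤ c * ‖x - y‖ := by
  obtain ⟨K, hK0, hK⟩ := gam_lip
  obtain ⟨M, hM⟩ := bb_small (δ := c / (K + 1)) (by positivity)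
  refine ⟨ep M / 2, half_pos (ep_pos M), fun x y hx hy => ?_⟩
  unfold UU
  refine (hK (c / (K + 1)) _ _ (by positivity) fun n => ?_).trans ?_
  · by_cases hn : M ≤ n
    · exact Or.inr (hM n hn)
    · left
      have h1 : ep M ≤ ep n := ep_anti (by omega)
      have h2 := ep_pos n
      unfold clip
      rw [max_eq_left (min_le_of_left_le (by linarith)),
        max_eq_left (min_le_of_left_le (by linarith))]
  · apply mul_le_mul _ _ (abs_nonneg _) hc.le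
    · rw [← mul_div_assoc, div_le_iff₀ (by positivity)]
      nlinarith
    · refine (abs_norm_sub_norm_le _ _).trans (le_of_eq ?_)
      congr 1; abel

lemma UU_contDiff : ContDiff ℝ 1 UU := by
  rw [contDiff_one_iff_fderiv]
  refine ⟨UU_differentiable, continuous_iff_continuousAt.mpr fun x => ?_⟩
  by_cases hx : x = pt
  · rw [hx, ContinuousAt, UU_hasFDerivAt_pt.fderiv, Metric.tendsto_nhds]
    intro ε hε
    obtain ⟨r, hr, h⟩ := UU_local_lip (half_pos hε)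
    have hopen : IsOpen {y : Lp' 2 | ‖y - pt‖ < r} := isOpen_lt (by fun_prop) continuous_const
    have hball : ∀ᶠ y in 𝓝 pt, ‖y - pt‖ < r := hopen.mem_nhds (by simpa using hr)
    filter_upwards [hball] with y hy
    rw [dist_zero_right]
    refine lt_of_le_of_lt (norm_fderiv_le_of_lip' ℝ (half_pos hε).le ?_) (half_lt_self hε)
    filter_upwards [hopen.mem_nhds hy] with z hz
    exact h z y hz hy
  · exact (UU_contDiffAt hx).continuousAt_fderiv (by simp)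

/-- the space -/
abbrev XX : Type := Lp' 2 × Lp' 1

/-- the inclusion -/
noncomputable def jX (θ : ℝ) : XX →L[ℂ] XX := (inclc 2 (cc θ)).prodMap (inclc 1 (cc θ))

/-- the operator on the product -/
noncomputable def WW (ε : ℝ) (p : XX) : XX := (p.1, p.2 + ε • UU p.1)

lemma jX_injective {θ : ℝ} (h0 : 0 < θ) : Function.Injective (jX θ) :=
  (inclc_injective (cc_pos h0)).prodMap (inclc_injective (cc_pos h0))

lemma WW_lip {M : ℝ} (hM0 : 0 ≤ M) (hM : ∀ x y, ‖UU x - UU y‖ ≤ M * ‖x - y‖) {ε : ℝ}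
    (hε : 0 < ε) (p q : XX) : ‖WW ε p - WW ε q‖ ≤ (1 + ε * M) * ‖p - q‖ := by
  have h1 : ‖p.1 - q.1‖ ≤ ‖p - q‖ := norm_fst_le (p - q)
  have h2 : ‖p.2 - q.2‖ ≤ ‖p - q‖ := norm_snd_le (p - q)
  have h3 := norm_nonneg (p - q)
  have h4 : 0 ≤ ε * M * ‖p - q‖ := by positivity
  rw [Prod.norm_def]
  apply max_le
  · show ‖p.1 - q.1‖ ≤ _
    linarith
  · show ‖p.2 + ε • UU p.1 - (q.2 + ε • UU q.1)‖ ≤ _
    have e : p.2 + ε • UU p.1 - (q.2 + ε • UU q.1) = (p.2 - q.2) + ε • (UU p.1 - UU q.1) := by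
      rw [smul_sub]; abel
    rw [e]
    refine (norm_add_le _ _).trans ?_
    rw [norm_smul, Real.norm_eq_abs, abs_of_pos hε]
    have h5 : ‖UU p.1 - UU q.1‖ ≤ M * ‖p - q‖ :=
      (hM _ _).trans (mul_le_mul_of_nonneg_left h1 hM0)
    have h6 := mul_le_mul_of_nonneg_left h5 hε.le
    nlinarith

lemma WW_bound {θ : ℝ} (h0 : 0 < θ) (h1 : θ < 1) {ε : ℝ} (hε : 0 < ε) :
    ∃ M1 : ℝ, ∀ p, ∃ q, jX θ q = WW ε (jX θ p) ∧ ‖q‖ ≤ M1 * ‖p‖ := by
  obtain ⟨C, hC0, hC⟩ := UU_bound' h0 h1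
  refine ⟨1 + ε * C, fun p => ?_⟩
  obtain ⟨y, hy1, hy2⟩ := hC p.1
  refine ⟨(p.1, p.2 + ε • y), ?_, ?_⟩
  · apply Prod.ext
    · rfl
    · show inclc 1 (cc θ) (p.2 + ε • y) = inclc 1 (cc θ) p.2 + ε • UU (inclc 2 (cc θ) p.1)
      rw [map_add, ContinuousLinearMap.map_smul_of_tower, hy1]
  · have h1 : ‖p.1‖ ≤ ‖p‖ := norm_fst_le p
    have h2 : ‖p.2‖ ≤ ‖p‖ := norm_snd_le p
    have h3 := norm_nonneg p
    have h4 : 0 ≤ ε * C * ‖p‖ := by positivity
    rw [Prod.norm_def]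
    apply max_le
    · show ‖p.1‖ ≤ _
      linarith
    · show ‖p.2 + ε • y‖ ≤ _
      refine (norm_add_le _ _).trans ?_
      rw [norm_smul, Real.norm_eq_abs, abs_of_pos hε]
      have h5 : ‖y‖ ≤ C * ‖p‖ := hy2.trans (mul_le_mul_of_nonneg_left h1 hC0)
      have h6 := mul_le_mul_of_nonneg_left h5 hε.le
      nlinarith

lemma WW_contDiff (ε : ℝ) : ContDiff ℝ 1 (WW ε) :=
  contDiff_fst.prodMk (contDiff_snd.add ((UU_contDiff.comp contDiff_fst).const_smul ε))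

lemma WW_fderiv (ε : ℝ) (a h : XX) :
    fderiv ℝ (WW ε) a h = (h.1, h.2 + ε • fderiv ℝ UU a.1 h.1) := by
  have h1 : HasFDerivAt (WW ε) ((ContinuousLinearMap.fst ℝ _ _).prod
      (ContinuousLinearMap.snd ℝ _ _ +
        ε • (fderiv ℝ UU a.1).comp (ContinuousLinearMap.fst ℝ _ _))) a :=
    hasFDerivAt_fst.prodMk (hasFDerivAt_snd.add
      (((UU_differentiable a.1).hasFDerivAt.comp a hasFDerivAt_fst).const_smul ε))
  rw [h1.fderiv]
  rfl

lemma WW_dev {M : ℝ} (hM0 : 0 ≤ M) (hM : ∀ x y, ‖UU x - UU y‖ ≤ M * ‖x - y‖) {ε : ℝ}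
    (hε : 0 < ε) (a h : XX) :
    ‖fderiv ℝ (WW ε) a (I • h) - I • fderiv ℝ (WW ε) a h‖ ≤
      2 * ε * M * ‖fderiv ℝ (WW ε) a h‖ := by
  have hD : ‖fderiv ℝ UU a.1‖ ≤ M :=
    norm_fderiv_le_of_lip' ℝ hM0 (Filter.Eventually.of_forall fun x => hM x a.1)
  have h1 : ‖h.1‖ ≤ ‖fderiv ℝ (WW ε) a h‖ := by
    have := norm_fst_le (fderiv ℝ (WW ε) a h)
    rwa [WW_fderiv] at this ⊢
  have e : fderiv ℝ (WW ε) a (I • h) - I • fderiv ℝ (WW ε) a h =
      (0, ε • (fderiv ℝ UU a.1 (I • h.1) - I • fderiv ℝ UU a.1 h.1)) := by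
    rw [WW_fderiv, WW_fderiv]
    apply Prod.ext
    · simp
    · simp only [Prod.smul_snd, Prod.smul_fst, Prod.smul_mk, Prod.mk_sub_mk, smul_add, smul_sub]
      rw [smul_comm I ε]; abel
  rw [e, Prod.norm_def, norm_zero, max_eq_right (norm_nonneg _), norm_smul, Real.norm_eq_abs,
    abs_of_pos hε]
  have h2 : ‖fderiv ℝ UU a.1 (I • h.1)‖ ≤ M * ‖h.1‖ := by
    refine (ContinuousLinearMap.le_opNorm _ _).trans ?_
    rw [norm_smul, norm_I, one_mul]
    exact mul_le_mul_of_nonneg_right hD (norm_nonneg _)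
  have h3 : ‖I • fderiv ℝ UU a.1 h.1‖ ≤ M * ‖h.1‖ := by
    rw [norm_smul, norm_I, one_mul]
    exact (ContinuousLinearMap.le_opNorm _ _).trans
      (mul_le_mul_of_nonneg_right hD (norm_nonneg _))
  have h4 := norm_sub_le (fderiv ℝ UU a.1 (I • h.1)) (I • fderiv ℝ UU a.1 h.1)
  have h5 : M * ‖h.1‖ ≤ M * ‖fderiv ℝ (WW ε) a h‖ := mul_le_mul_of_nonneg_left h1 hM0
  have h6 : ‖fderiv ℝ UU a.1 (I • h.1) - I • fderiv ℝ UU a.1 h.1‖ ≤
      2 * (M * ‖fderiv ℝ (WW ε) a h‖) := by linarith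
  have h7 := mul_le_mul_of_nonneg_left h6 hε.le
  linarith

lemma interp_map {A0 A1 B0 B1 : Type} [NormedAddCommGroup A0] [NormedSpace ℂ A0]
    [NormedAddCommGroup A1] [NormedSpace ℂ A1] [NormedAddCommGroup B0] [NormedSpace ℂ B0]
    [NormedAddCommGroup B1] [NormedSpace ℂ B1] {jA : A1 →L[ℂ] A0} {jB : B1 →L[ℂ] B0}
    (L : A0 →L[ℂ] B0) (V : A1 →L[ℂ] B1) (h : ∀ x, L (jA x) = jB (V x)) {θ : ℝ} {a : A0}
    (ha : a ∈ interp jA θ) : L a ∈ interp jB θ := by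
  obtain ⟨f, g, ⟨g1, g2, ⟨C, g3⟩, g4, g5, g6, g7⟩, hfa⟩ := ha
  refine ⟨fun z => L (f z), fun t => V (g t), ⟨L.continuous.comp_continuousOn g1,
    L.differentiable.comp_differentiableOn g2,
    ⟨‖L‖ * C, fun z hz0 hz1 => (L.le_opNorm _).trans
      (mul_le_mul_of_nonneg_left (g3 z hz0 hz1) (norm_nonneg _))⟩, fun t => ?_,
    V.continuous.comp g5, ?_, ?_⟩, by rw [← hfa]⟩
  · show L (f (1 + t * I)) = jB (V (g t))
    rw [g4, h]
  · have := (L.continuous.tendsto 0).comp g6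
    rwa [map_zero] at this
  · have := (V.continuous.tendsto 0).comp g7
    rwa [map_zero] at this

lemma ptX_mem {θ : ℝ} (h0 : 0 < θ) (h1 : θ < 1) : ((pt, 0) : XX) ∈ interp (jX θ) θ :=
  interp_map (ContinuousLinearMap.inl ℂ (Lp' 2) (Lp' 1)) (ContinuousLinearMap.inl ℂ (Lp' 2) (Lp' 1))
    (fun x => by simp [jX]) (pt_mem' h0 h1)

lemma WW_ptX_notMem {θ : ℝ} (h0 : 0 < θ) (h1 : θ < 1) {ε : ℝ} (hε : 0 < ε) :
    WW ε (pt, 0) ∉ interp (jX θ) θ := by
  intro h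
  have := interp_map (jB := inclc 1 (cc θ)) (ContinuousLinearMap.snd ℂ (Lp' 2) (Lp' 1))
    (ContinuousLinearMap.snd ℂ (Lp' 2) (Lp' 1)) (fun x => by simp [jX]) h
  apply UU_pt_notMem' h0 h1 hε
  simpa [WW] using this

/-- transfer to the real structure obtained by restricting the complex scalars -/
lemma transfer {E : Type} [NormedAddCommGroup E] [NormedSpace ℂ E] [iE : NormedSpace ℝ E]
    [IsScalarTower ℝ ℂ E] {U : E → E} {k : ℝ} (hU : ContDiff ℝ 1 U)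
    (hk : ∀ a h, ‖fderiv ℝ U a (I • h) - I • fderiv ℝ U a h‖ ≤ k * ‖fderiv ℝ U a h‖) :
    @ContDiff ℝ _ E _ NormedSpace.complexToReal E _ NormedSpace.complexToReal 1 U ∧
      GateauxDev k U := by
  have hE : iE = NormedSpace.complexToReal := by
    ext r x
    exact (algebraMap_smul ℂ r x).symm
  subst hE
  refine ⟨hU, fun a => ⟨fderiv ℝ U a, fun h => ?_, hk a⟩⟩
  have h1 := (hU.differentiable (by simp) a).hasFDerivAt.hasLineDerivAt h
  have h2 := hasDerivAt_iff_tendsto_slope_zero.mp h1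
  simpa using h2

theorem weak_fails {θ k : ℝ} (h0 : 0 < θ) (h1 : θ < 1) (hk : 0 < k) :
    ¬ ∀ (A0 A1 : Type)
      [NormedAddCommGroup A0] [NormedSpace ℂ A0] [CompleteSpace A0]
      [NormedAddCommGroup A1] [NormedSpace ℂ A1] [CompleteSpace A1]
      (j : A1 →L[ℂ] A0) (U : A0 → A0) (M0 M1 : ℝ), Function.Injective j →
      (∀ a b, ‖U a - U b‖ ≤ M0 * ‖a - b‖) →
      (∀ x, ∃ y, j y = U (j x) ∧ ‖y‖ ≤ M1 * ‖x‖) →
      ContDiff ℝ 1 U → GateauxDev k U →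
      ∀ a ∈ interp j θ, U a ∈ interp j θ := by
  intro h
  obtain ⟨M', hM'⟩ := UU_lip
  have hM0 : 0 ≤ max M' 0 := le_max_right _ _
  have hM : ∀ x y, ‖UU x - UU y‖ ≤ max M' 0 * ‖x - y‖ := fun x y =>
    (hM' x y).trans (mul_le_mul_of_nonneg_right (le_max_left _ _) (norm_nonneg _))
  set M := max M' 0
  have hε : 0 < k / (2 * M + 1) := by positivity
  obtain ⟨M1, hM1⟩ := WW_bound h0 h1 hε
  have hle : 2 * (k / (2 * M + 1)) * M ≤ k := by
    rw [show 2 * (k / (2 * M + 1)) * M = k * (2 * M) / (2 * M + 1) by ring,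
      div_le_iff₀ (by positivity)]
    nlinarith
  obtain ⟨h3, h4⟩ := transfer (k := k) (WW_contDiff (k / (2 * M + 1))) fun a v =>
    (WW_dev hM0 hM hε a v).trans (mul_le_mul_of_nonneg_right hle (norm_nonneg _))
  exact WW_ptX_notMem h0 h1 hε (h XX XX (jX θ) _ _ M1 (jX_injective h0) (WW_lip hM0 hM hε) hM1
    h3 h4 _ (ptX_mem h0 h1))

end Pool.Agent.P.MP_754066_an
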