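import Pool.Agent.P.MP_754066_an.Defs2
import Pool.Agent.P.MP_754066_an.ComplexCase

namespace Pool.Agent.P.MP_754066_an

open Complex Filter Topology

variable {A0 A1 B0 B1 : Type} [NormedAddCommGroup A0] [NormedSpace ℂ A0]
  [NormedAddCommGroup A1] [NormedSpace ℂ A1] [NormedAddCommGroup B0] [NormedSpace ℂ B0]
  [NormedAddCommGroup B1] [NormedSpace ℂ B1]

lemma smul_comm_of_I (L : A0 →L[ℝ] B0) (hI : ∀ h, L (I • h) = I • L h) (c : ℂ) (h : A0) :
    L (c • h) = c • L h := by
  have e1 : c • h = c.re • h + c.im • (I • h) := by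
    conv_lhs => rw [← re_add_im c]
    rw [add_smul, mul_smul]
    rfl
  have e2 : c • L h = c.re • L h + c.im • (I • L h) := by
    conv_lhs => rw [← re_add_im c]
    rw [add_smul, mul_smul]
    rfl
  rw [e1, e2, map_add, map_smul, map_smul, hI]

/-- for a Lipschitz map, real Gateaux differentiability with complex linear derivative gives
complex Gateaux differentiability -/
lemma complex_of_dev_zero {U : A0 → B0} {M0 : ℝ}
    (h1 : ∀ a b, ‖U a - U b‖ ≤ M0 * ‖a - b‖) (h3 : GateauxDev 0 U) (a : A0) :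
    ∃ L : A0 →L[ℂ] B0, ∀ h,
      Tendsto (fun t : ℂ => t⁻¹ • (U (a + t • h) - U a)) (𝓝[≠] 0) (𝓝 (L h)) := by
  obtain ⟨L, hL1, hL2⟩ := h3 a
  have hI : ∀ h, L (I • h) = I • L h := fun h => by
    have := hL2 h
    rw [zero_mul, norm_le_zero_iff, sub_eq_zero] at this
    exact this
  let Lc : A0 →L[ℂ] B0 :=
    { toFun := L
      map_add' := L.map_add
      map_smul' := fun c h => smul_comm_of_I L hI c h
      cont := L.continuous }
  refine ⟨Lc, fun h => ?_⟩
  have hlip : LipschitzWith (Real.toNNReal (M0 * ‖h‖)) (fun t : ℂ => U (a + t • h)) := by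
    apply LipschitzWith.of_dist_le'
    intro s t
    rw [dist_eq_norm, dist_eq_norm]
    refine (h1 _ _).trans (le_of_eq ?_)
    rw [add_sub_add_left_eq_sub, ← sub_smul, norm_smul]; ring
  have hF : HasFDerivAt (fun t : ℂ => U (a + t • h))
      ((ContinuousLinearMap.toSpanSingleton ℂ (L h)).restrictScalars ℝ) 0 := by
    apply hlip.hasFDerivAt_of_hasLineDerivAt_of_closure (s := Set.univ) (by simp)
    intro v _
    unfold HasLineDerivAt
    rw [hasDerivAt_iff_tendsto_slope_zero]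
    have h4 := hL1 (v • h)
    rw [smul_comm_of_I L hI] at h4
    simp only [ContinuousLinearMap.coe_restrictScalars', ContinuousLinearMap.toSpanSingleton_apply,
      zero_add, zero_smul, add_zero]
    refine h4.congr fun t => ?_
    rw [smul_assoc]
  have hC : HasFDerivAt (fun t : ℂ => U (a + t • h))
      (ContinuousLinearMap.toSpanSingleton ℂ (L h)) 0 := hasFDerivAt_of_restrictScalars ℝ hF rfl
  have hD : HasDerivAt (fun t : ℂ => U (a + t • h)) (L h) 0 := by
    simpa using hC.hasDerivAt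
  have := hasDerivAt_iff_tendsto_slope_zero.mp hD
  show Tendsto _ _ (𝓝 (L h))
  simpa using this

theorem strong_zero [CompleteSpace B0] (jA : A1 →L[ℂ] A0) (jB : B1 →L[ℂ] B0)
    (hB : Function.Injective jB) (θ : ℝ) (U : A0 → B0) (M0 M1 : ℝ)
    (h1 : ∀ a b, ‖U a - U b‖ ≤ M0 * ‖a - b‖)
    (h2 : ∀ x, ∃ y, jB y = U (jA x) ∧ ‖y‖ ≤ M1 * ‖x‖) (h3 : GateauxDev 0 U)
    (a : A0) (ha : a ∈ interp jA θ) :
    U a ∈ interp jB θ ∧ interpNorm jB θ (U a) ≤ max M0 M1 * interpNorm jA θ a := by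
  rcases le_or_gt 0 (max M0 M1) with hM | hM
  · exact complex_case jA jB hB θ U M0 M1 hM h1 h2 (complex_of_dev_zero h1 h3) a ha
  · have hM0 : M0 < 0 := lt_of_le_of_lt (le_max_left _ _) hM
    have hM1 : M1 < 0 := lt_of_le_of_lt (le_max_right _ _) hM
    have h1' : ∀ a b, ‖U a - U b‖ ≤ 0 * ‖a - b‖ := fun a b =>
      (h1 a b).trans (mul_le_mul_of_nonneg_right hM0.le (norm_nonneg _))
    have h2' : ∀ x, ∃ y, jB y = U (jA x) ∧ ‖y‖ ≤ 0 * ‖x‖ := fun x => by
      obtain ⟨y, hy1, hy2⟩ := h2 x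
      exact ⟨y, hy1, hy2.trans (mul_le_mul_of_nonneg_right hM1.le (norm_nonneg _))⟩
    obtain ⟨h4, h5⟩ := complex_case jA jB hB θ U 0 0 (by simp) h1' h2'
      (complex_of_dev_zero h1 h3) a ha
    refine ⟨h4, h5.trans ?_⟩
    rw [max_self, zero_mul]
    have ha0 : a = 0 := by
      have h6 := (norm_nonneg _).trans (h1 a 0)
      rw [sub_zero] at h6
      have h7 : ‖a‖ ≤ 0 := by
        by_contra h8
        push Not at h8
        nlinarith
      exact norm_le_zero_iff.mp h7
    have hle : interpNorm jA θ a ≤ 0 := by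
      apply csInf_le
      · refine ⟨0, ?_⟩
        rintro M ⟨f, g, -, -, h⟩
        exact (norm_nonneg _).trans (h 0).1
      · refine ⟨fun _ => 0, fun _ => 0, ⟨continuousOn_const, differentiableOn_const _,
          ⟨0, fun _ _ _ => by simp⟩, fun _ => by simp, continuous_const, tendsto_const_nhds,
          tendsto_const_nhds⟩, ha0.symm, fun _ => by simp⟩
    exact mul_nonneg_of_nonpos_of_nonpos hM.le hle

end Pool.Agent.P.MP_754066_an
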